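import Mathlib

namespace Pool.Agent.H.MP_260507_an
open Set Filter Topology MeasureTheory

variable {E : Type} [NormedAddCommGroup E] [NormedSpace ℝ E]

theorem gron {w w' : ℝ → E} {K s0 : ℝ} (hw : ∀ s, HasDerivAt w (w' s) s)
    (hb : ∀ s, ‖w' s‖ ≤ K * ‖w s‖) (h0 : w s0 = 0) (s : ℝ) : w s = 0 := by
  have hc : Continuous w := continuous_iff_continuousAt.2 fun s => (hw s).continuousAt
  rcases le_total s0 s with h | h
  · exact eq_zero_of_abs_deriv_le_mul_abs_self_of_eq_zero_right (a := s0) (b := s) (f' := w')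
      (K := K) hc.continuousOn (fun x _ => (hw x).hasDerivWithinAt) h0 (fun x _ => hb x) s
      ⟨h, le_rfl⟩
  · have := eq_zero_of_abs_deriv_le_mul_abs_self_of_eq_zero_right (a := -s0) (b := -s)
      (f := fun r => w (-r)) (f' := fun r => -w' (-r)) (K := K)
      (hc.comp continuous_neg).continuousOn
      (fun x _ => by
        have := (hw (-x)).scomp x (hasDerivAt_neg x)
        simp only [neg_smul, one_smul] at this
        exact this.hasDerivWithinAt)
      (by simpa using h0) (fun x _ => by simpa using hb (-x)) (-s) ⟨by linarith, le_rfl⟩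
    simpa using this

variable (T : ℝ) [hT : Fact (0 < T)]

theorem cco : Continuous (fun s : ℝ => (s : AddCircle T)) := AddCircle.continuous_mk' T

theorem coe_add_T (s : ℝ) : ((s + T : ℝ) : AddCircle T) = (s : AddCircle T) :=
  AddCircle.coe_add_period T s

noncomputable def mkX (u : ℝ → E) (hc : Continuous u) (hp : Function.Periodic u T) :
    C(AddCircle T, E) :=
  ⟨hp.lift, by
    refine continuous_coinduced_dom.2 ?_
    exact hc⟩

omit [NormedSpace ℝ E] hT in
theorem mkX_coe (u : ℝ → E) (hc : Continuous u) (hp : Function.Periodic u T) (s : ℝ) :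
    mkX T u hc hp (s : AddCircle T) = u s := rfl

noncomputable def kap : ℝ := (1 - Real.exp (-T))⁻¹

theorem kap_pos : 0 < kap T := by
  have : Real.exp (-T) < 1 := Real.exp_lt_one_iff.2 (by linarith [hT.out])
  unfold kap; exact inv_pos.2 (by linarith)

theorem kap_mul : kap T * (1 - Real.exp (-T)) = 1 := by
  have : Real.exp (-T) < 1 := Real.exp_lt_one_iff.2 (by linarith [hT.out])
  unfold kap; exact inv_mul_cancel₀ (by linarith)

noncomputable def G0 (h : C(AddCircle T, E)) : C(AddCircle T, E) :=
  ⟨fun σ => kap T • ∫ r in (0:ℝ)..T, Real.exp (-r) • h (σ - (r : AddCircle T)), by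
    refine Continuous.const_smul ?_ _
    refine intervalIntegral.continuous_parametric_intervalIntegral_of_continuous' ?_ _ _
    have := cco T
    exact (Real.continuous_exp.comp (continuous_neg.comp continuous_snd)).smul
      (h.continuous.comp (continuous_fst.sub (this.comp continuous_snd)))⟩

theorem G0_cont (h : C(AddCircle T, E)) (σ : AddCircle T) :
    Continuous fun r : ℝ => Real.exp (-r) • h (σ - (r : AddCircle T)) :=
  (Real.continuous_exp.comp continuous_neg).smul
      (h.continuous.comp (continuous_const.sub (cco T)))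

theorem G0_norm (h : C(AddCircle T, E)) :
    ‖G0 T h‖ ≤ kap T * ∫ s in (0:ℝ)..T, ‖h (s : AddCircle T)‖ := by
  have hT0 := hT.out
  have hk := kap_pos T
  have hI : 0 ≤ ∫ s in (0:ℝ)..T, ‖h (s : AddCircle T)‖ :=
    intervalIntegral.integral_nonneg hT0.le fun _ _ => norm_nonneg _
  refine (ContinuousMap.norm_le _ (by positivity)).2 fun σ => ?_
  induction σ using QuotientAddGroup.induction_on with
  | H s =>
  show ‖kap T • ∫ r in (0:ℝ)..T, Real.exp (-r) • h ((s : AddCircle T) - (r : AddCircle T))‖ ≤ _
  rw [norm_smul, Real.norm_of_nonneg hk.le]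
  refine mul_le_mul_of_nonneg_left ?_ hk.le
  have hc : Continuous fun u : ℝ => ‖h (u : AddCircle T)‖ := (h.continuous.comp (cco T)).norm
  have h1 : ∫ r in (0:ℝ)..T, ‖h ((s - r : ℝ) : AddCircle T)‖ =
      ∫ u in (0:ℝ)..T, ‖h (u : AddCircle T)‖ := by
    rw [intervalIntegral.integral_comp_sub_left (fun u : ℝ => ‖h (u : AddCircle T)‖) s]
    have hp : Function.Periodic (fun u : ℝ => ‖h (u : AddCircle T)‖) T := fun u => by
      simp only [coe_add_T]
    have := hp.intervalIntegral_add_eq (s - T) 0
    simpa using this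
  rw [← h1]
  refine (intervalIntegral.norm_integral_le_integral_norm hT0.le).trans ?_
  refine intervalIntegral.integral_mono_on hT0.le ((G0_cont T h _).norm.intervalIntegrable _ _)
    ((hc.comp (continuous_const.sub continuous_id)).intervalIntegrable _ _) fun r hr => ?_
  rw [norm_smul, Real.norm_of_nonneg (Real.exp_pos _).le, AddCircle.coe_sub]
  have : Real.exp (-r) ≤ 1 := Real.exp_le_one_iff.2 (by linarith [hr.1])
  exact mul_le_of_le_one_left (norm_nonneg _) this

theorem int_le (h : C(AddCircle T, E)) :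
    ∫ s in (0:ℝ)..T, ‖h (s : AddCircle T)‖ ≤ T * ‖h‖ := by
  have hT0 := hT.out
  have := intervalIntegral.integral_mono_on (μ := volume) hT0.le
    ((h.continuous.comp (cco T)).norm.intervalIntegrable 0 T)
    ((continuous_const (y := ‖h‖)).intervalIntegrable 0 T) fun r _ => h.norm_coe_le_norm _
  simpa using this

noncomputable def G : C(AddCircle T, E) →L[ℝ] C(AddCircle T, E) :=
  LinearMap.mkContinuous
    { toFun := G0 T
      map_add' := fun a b => by
        ext σ
        show kap T • ∫ r in (0:ℝ)..T, Real.exp (-r) • (a + b) (σ - (r : AddCircle T)) =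
          kap T • (∫ r in (0:ℝ)..T, Real.exp (-r) • a (σ - (r : AddCircle T))) +
          kap T • ∫ r in (0:ℝ)..T, Real.exp (-r) • b (σ - (r : AddCircle T))
        rw [← smul_add, ← intervalIntegral.integral_add ((G0_cont T a σ).intervalIntegrable _ _)
          ((G0_cont T b σ).intervalIntegrable _ _)]
        simp only [ContinuousMap.add_apply, smul_add]
      map_smul' := fun c a => by
        ext σ
        show kap T • ∫ r in (0:ℝ)..T, Real.exp (-r) • (c • a) (σ - (r : AddCircle T)) =
          c • kap T • (∫ r in (0:ℝ)..T, Real.exp (-r) • a (σ - (r : AddCircle T)))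
        rw [smul_comm c, ← intervalIntegral.integral_smul c]
        simp only [ContinuousMap.smul_apply, smul_comm c] }
    (kap T * T) (fun h => by
      refine (G0_norm T h).trans ?_
      rw [mul_assoc]
      exact mul_le_mul_of_nonneg_left (int_le T h) (kap_pos T).le)

theorem G_norm (h : C(AddCircle T, E)) :
    ‖G T h‖ ≤ kap T * ∫ s in (0:ℝ)..T, ‖h (s : AddCircle T)‖ := G0_norm T h

theorem G_norm' (h : C(AddCircle T, E)) : ‖G T h‖ ≤ kap T * T * ‖h‖ := by
  refine (G0_norm T h).trans ?_
  rw [mul_assoc]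
  exact mul_le_mul_of_nonneg_left (int_le T h) (kap_pos T).le

variable [CompleteSpace E]

theorem G_deriv (h : C(AddCircle T, E)) (s : ℝ) :
    HasDerivAt (fun r : ℝ => G T h (r : AddCircle T)) (h s - G T h s) s := by
  obtain ⟨φ, hφ⟩ : ∃ φ : ℝ → E, φ = fun u => Real.exp u • h (u : AddCircle T) := ⟨_, rfl⟩
  have hc : Continuous φ := by
    rw [hφ]; exact Real.continuous_exp.smul (h.continuous.comp (cco T))
  have e1 : ∀ r : ℝ, G T h (r : AddCircle T) =
      (kap T * Real.exp (-r)) • ((∫ u in (0:ℝ)..r, φ u) - ∫ u in (0:ℝ)..(r - T), φ u) := by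
    intro r
    rw [intervalIntegral.integral_interval_sub_left (hc.intervalIntegrable _ _)
      (hc.intervalIntegrable _ _)]
    have := intervalIntegral.integral_comp_sub_left (a := 0) (b := T) φ r
    rw [sub_zero] at this
    rw [← this, mul_smul, ← intervalIntegral.integral_smul (Real.exp (-r))]
    show kap T • ∫ t in (0:ℝ)..T, Real.exp (-t) • h ((r : AddCircle T) - (t : AddCircle T)) = _
    congr 2
    funext t
    rw [hφ]
    simp only [smul_smul, ← Real.exp_add, AddCircle.coe_sub]
    congr 2; ring
  have d1 : ∀ r, HasDerivAt (fun r => ∫ u in (0:ℝ)..r, φ u) (φ r) r := fun r =>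
    (hc.integral_hasStrictDerivAt 0 r).hasDerivAt
  have d2 : HasDerivAt (fun r => ∫ u in (0:ℝ)..(r - T), φ u) (φ (s - T)) s := by
    have := (d1 (s - T)).scomp s ((hasDerivAt_id s).sub_const T)
    simpa [Function.comp_def] using this
  have d3 : HasDerivAt (fun r => kap T * Real.exp (-r)) (kap T * (Real.exp (-s) * (-1))) s :=
    ((hasDerivAt_neg s).exp).const_mul _
  have d4 := d3.smul ((d1 s).sub d2)
  have e2 : (fun r : ℝ => G T h (r : AddCircle T)) = fun r =>
      (kap T * Real.exp (-r)) • ((∫ u in (0:ℝ)..r, φ u) - ∫ u in (0:ℝ)..(r - T), φ u) :=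
    funext e1
  rw [e2]
  refine HasDerivAt.congr_deriv d4 ?_
  symm
  rw [e1 s]
  have e3 : φ s - φ (s - T) = (Real.exp s * (1 - Real.exp (-T))) • h s := by
    rw [hφ]
    have : ((s - T : ℝ) : AddCircle T) = (s : AddCircle T) := by
      rw [← coe_add_T T (s - T)]; simp
    simp only [this]
    rw [← sub_smul, sub_eq_add_neg s T, Real.exp_add]; congr 1; ring
  simp only [Pi.sub_apply]
  rw [e3, smul_smul]
  have e4 : kap T * Real.exp (-s) * (Real.exp s * (1 - Real.exp (-T))) = 1 := by
    have := kap_mul T
    have h2 : Real.exp (-s) * Real.exp s = 1 := by rw [← Real.exp_add]; simp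
    calc _ = (kap T * (1 - Real.exp (-T))) * (Real.exp (-s) * Real.exp s) := by ring
      _ = 1 := by rw [this, h2]; ring
  rw [e4, one_smul, sub_eq_add_neg, ← neg_smul]
  congr 2; ring

theorem G_unique (u H : C(AddCircle T, E))
    (hu : ∀ s : ℝ, HasDerivAt (fun r : ℝ => u (r : AddCircle T)) (H s - u s) s) : u = G T H := by
  have hd : ∀ s : ℝ, HasDerivAt
      (fun r : ℝ => Real.exp r • (u (r : AddCircle T) - G T H (r : AddCircle T))) 0 s := by
    intro s
    have := (Real.hasDerivAt_exp s).smul ((hu s).sub (G_deriv T H s))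
    refine HasDerivAt.congr_deriv this ?_
    simp only [Pi.sub_apply]
    rw [← smul_add]; simp
  have hc := is_const_of_deriv_eq_zero (fun s => (hd s).differentiableAt) (fun s => (hd s).deriv)
  ext σ
  induction σ using QuotientAddGroup.induction_on with
  | H s =>
  have := hc (s + T) s
  simp only [coe_add_T] at this
  rw [← sub_eq_zero, ← sub_smul, smul_eq_zero] at this
  rcases this with h | h
  · have : Real.exp s < Real.exp (s + T) := Real.exp_lt_exp.2 (by linarith [hT.out])
    linarith
  · exact sub_eq_zero.1 h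

end Pool.Agent.H.MP_260507_an
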