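import Pool.Agent.H.MP_260507_an.A

namespace Pool.Agent.H.MP_260507_an
open Set Filter Topology MeasureTheory

variable {E : Type} [NormedAddCommGroup E] [NormedSpace ℝ E] [FiniteDimensional ℝ E]

theorem simple_split (M : E →ₗ[ℝ] E) (hm : M.charpoly.rootMultiplicity 1 = 1) {v : E}
    (hv : v ≠ 0) (hMv : M v = v) (b : E) : ∃ (a : E) (τ : ℝ), M a - a + τ • v = b := by
  have h1 := LinearMap.finrank_maxGenEigenspace_eq (M : Module.End ℝ E) 1
  rw [hm] at h1
  obtain ⟨N, hN⟩ : ∃ N : Module.End ℝ E, N = M - (1:ℝ) • (1 : Module.End ℝ E) := ⟨_, rfl⟩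
  have hNa : ∀ a, N a = M a - a := fun a => by rw [hN]; simp
  have hvm : v ∈ Module.End.maxGenEigenspace (M : Module.End ℝ E) 1 := by
    rw [Module.End.mem_maxGenEigenspace]
    refine ⟨1, ?_⟩
    rw [← hN, pow_one, hNa, hMv, sub_self]
  have hsp : Module.End.maxGenEigenspace (M : Module.End ℝ E) 1 = Submodule.span ℝ {v} := by
    symm
    refine Submodule.eq_of_le_of_finrank_le ((Submodule.span_singleton_le_iff_mem _ _).2 hvm) ?_
    rw [h1, finrank_span_singleton hv]
  obtain ⟨n, hn⟩ := eventually_atTop.1 (LinearMap.eventually_codisjoint_ker_pow_range_pow N)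
  have hc := hn (n + 1) (Nat.le_succ n)
  rw [codisjoint_iff, eq_top_iff] at hc
  obtain ⟨p, hp, q, ⟨a, rfl⟩, hpq⟩ := Submodule.mem_sup.1 (hc (Submodule.mem_top (x := b)))
  have hp' : p ∈ Module.End.maxGenEigenspace (M : Module.End ℝ E) 1 := by
    rw [Module.End.mem_maxGenEigenspace]
    exact ⟨n + 1, by rw [← hN]; exact hp⟩
  rw [hsp, Submodule.mem_span_singleton] at hp'
  obtain ⟨τ, rfl⟩ := hp'
  refine ⟨(N ^ n) a, τ, ?_⟩
  rw [← hNa, ← hpq, pow_succ', add_comm]
  rfl

variable (T : ℝ) [hT : Fact (0 < T)]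

theorem lin_solve (A : C(AddCircle T, E →L[ℝ] E)) (v : C(AddCircle T, E))
    (hv : ∀ s : ℝ, HasDerivAt (fun r : ℝ => v r) (A s (v s)) s) (hv0 : ∃ s : ℝ, v s ≠ 0)
    (Φ : ℝ → E →L[ℝ] E) (h0 : Φ 0 = 1) (hΦ : ∀ s : ℝ, HasDerivAt Φ ((A s).comp (Φ s)) s)
    (hm : (LinearMap.charpoly (Φ T : E →ₗ[ℝ] E)).rootMultiplicity 1 = 1)
    (k : C(AddCircle T, E)) : ∃ (η : C(AddCircle T, E)) (τ : ℝ),
      ∀ s : ℝ, HasDerivAt (fun r : ℝ => η r) (A s (η s) + k s + τ • v s) s := by
  haveI : CompleteSpace E := FiniteDimensional.complete ℝ E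
  have hT0 := hT.out
  have uniq : ∀ (w : ℝ → E) (s0 : ℝ), (∀ s : ℝ, HasDerivAt w (A s (w s)) s) → w s0 = 0 →
      ∀ s, w s = 0 := fun w s0 hw h s =>
    gron (K := ‖A‖) hw (fun s => ((A s).le_opNorm _).trans
      (mul_le_mul_of_nonneg_right (A.norm_coe_le_norm _) (norm_nonneg _))) h s
  have hΦu : ∀ (u : E) (s : ℝ), HasDerivAt (fun r => Φ r u) (A s (Φ s u)) s := fun u s => by
    simpa using (hΦ s).clm_apply (hasDerivAt_const s u)
  have hunit : ∀ s, IsUnit (Φ s) := fun s => by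
    have hi : Function.Injective (Φ s) := by
      refine (injective_iff_map_eq_zero _).2 fun u hu => ?_
      have := uniq (fun r => Φ r u) s (hΦu u) hu 0
      simpa [h0] using this
    rw [ContinuousLinearMap.isUnit_iff_bijective]
    exact ⟨hi, (LinearMap.injective_iff_surjective (f := (Φ s : E →ₗ[ℝ] E))).1 hi⟩
  have hΦc : Continuous Φ := continuous_iff_continuousAt.2 fun s => (hΦ s).continuousAt
  have hΨc : Continuous fun s => Ring.inverse (Φ s) := continuous_iff_continuousAt.2 fun s => by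
    obtain ⟨u, hu⟩ := hunit s
    have := NormedRing.inverse_continuousAt u
    rw [hu] at this
    exact ContinuousAt.comp (f := Φ) this hΦc.continuousAt
  have hkc : Continuous fun s : ℝ => Ring.inverse (Φ s) (k s) :=
    hΨc.clm_apply (k.continuous.comp (cco T))
  obtain ⟨P, hP⟩ : ∃ P : ℝ → E, P = fun s => Φ s (∫ r in (0:ℝ)..s, Ring.inverse (Φ r) (k r)) :=
    ⟨_, rfl⟩
  have hPd : ∀ s : ℝ, HasDerivAt P (A s (P s) + k s) s := fun s => by
    have := (hΦ s).clm_apply (hkc.integral_hasStrictDerivAt 0 s).hasDerivAt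
    rw [hP]
    refine HasDerivAt.congr_deriv this ?_
    have e : Φ s (Ring.inverse (Φ s) (k s)) = k s := by
      have := Ring.mul_inverse_cancel _ (hunit s)
      have h2 := congrArg (fun L : E →L[ℝ] E => L (k s)) this
      simpa using h2
    rw [e]; rfl
  have hP0 : P 0 = 0 := by rw [hP]; simp
  have hΦv : ∀ s : ℝ, Φ s (v (0:ℝ)) = v s := fun s => by
    have := uniq (fun r => Φ r (v (0:ℝ)) - v r) 0 (fun s => by
      rw [map_sub]; exact (hΦu _ s).sub (hv s)) (by simp [h0]) s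
    exact sub_eq_zero.1 this
  have hv00 : v (0:ℝ) ≠ 0 := fun h => by
    obtain ⟨s, hs⟩ := hv0
    exact hs (by rw [← hΦv s, h, map_zero])
  have hvT : v T = v (0:ℝ) := by rw [← coe_add_T T 0, zero_add]
  obtain ⟨a, τ, haτ⟩ := simple_split (Φ T : E →ₗ[ℝ] E) hm hv00 (by
    have := hΦv T
    rw [hvT] at this
    exact this) (-P T)
  obtain ⟨η, hη⟩ : ∃ η : ℝ → E, η = fun s => Φ s a + P s + (τ / T * s) • v s := ⟨_, rfl⟩
  have hηd : ∀ s : ℝ, HasDerivAt η (A s (η s) + k s + (τ / T) • v s) s := fun s => by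
    have := ((hΦu a s).add (hPd s)).add (((hasDerivAt_id s).const_mul (τ / T)).smul (hv s))
    rw [hη]
    refine HasDerivAt.congr_deriv this ?_
    simp only [map_add, map_smul, id, mul_one]
    abel
  have hη0 : η (0 + T) - η 0 = 0 := by
    rw [hη]
    simp only [zero_add, h0, hP0, mul_zero, zero_smul, add_zero, hvT]
    rw [div_mul_cancel₀ _ hT0.ne']
    have e : (Φ T) a - a + τ • v (0:ℝ) = -P T := haτ
    have e2 : (1 : E →L[ℝ] E) a = a := rfl
    rw [e2]
    calc _ = ((Φ T) a - a + τ • v (0:ℝ)) + P T := by abel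
      _ = 0 := by rw [e]; simp
  have hper : Function.Periodic η T := fun s => by
    have := uniq (fun r => η (r + T) - η r) 0 (fun s => by
      have h1 := (hηd (s + T)).comp_add_const s T
      have := h1.sub (hηd s)
      refine HasDerivAt.congr_deriv this ?_
      simp only [coe_add_T, map_sub]
      abel) hη0 s
    exact sub_eq_zero.1 this
  exact ⟨mkX T η (continuous_iff_continuousAt.2 fun s => (hηd s).continuousAt) hper, τ / T, hηd⟩

end Pool.Agent.H.MP_260507_an
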