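import Pool.Agent.H.MP_260507_an.B

namespace Pool.Agent.H.MP_260507_an
open Set Filter Topology MeasureTheory Metric

variable {E : Type} [NormedAddCommGroup E] [NormedSpace ℝ E]
variable (T : ℝ) [hT : Fact (0 < T)]

def nem {F : Type} [TopologicalSpace F] (g : E → F) (hg : Continuous g) (y : C(AddCircle T, E)) :
    C(AddCircle T, F) := ⟨fun σ => g (y σ), hg.comp y.continuous⟩

noncomputable def mulA (A : C(AddCircle T, E →L[ℝ] E)) :
    C(AddCircle T, E) →L[ℝ] C(AddCircle T, E) :=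
  LinearMap.mkContinuous
    { toFun := fun ξ => ⟨fun σ => A σ (ξ σ), A.continuous.clm_apply ξ.continuous⟩
      map_add' := fun a b => by ext σ; simp
      map_smul' := fun c a => by ext σ; simp }
    ‖A‖ (fun ξ => by
      refine (ContinuousMap.norm_le _ (by positivity)).2 fun σ => ?_
      exact ((A σ).le_opNorm _).trans (mul_le_mul (A.norm_coe_le_norm _) (ξ.norm_coe_le_norm _)
        (norm_nonneg _) (norm_nonneg A)))

theorem mulA_apply (A : C(AddCircle T, E →L[ℝ] E)) (ξ : C(AddCircle T, E)) (σ : AddCircle T) :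
    mulA T A ξ σ = A σ (ξ σ) := rfl

noncomputable def LL (A : C(AddCircle T, E →L[ℝ] E)) (v : C(AddCircle T, E)) :
    (C(AddCircle T, E) × ℝ) →L[ℝ] C(AddCircle T, E) :=
  ContinuousLinearMap.fst ℝ _ _ - (G T).comp ((mulA T A).comp (ContinuousLinearMap.fst ℝ _ _) +
    ContinuousLinearMap.fst ℝ _ _ + (ContinuousLinearMap.snd ℝ _ _).smulRight v)

theorem LL_apply (A : C(AddCircle T, E →L[ℝ] E)) (v ξ : C(AddCircle T, E)) (τ : ℝ) :
    LL T A v (ξ, τ) = ξ - G T (mulA T A ξ + ξ + τ • v) := rfl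

theorem LL_surj [CompleteSpace E] (A : C(AddCircle T, E →L[ℝ] E)) (v : C(AddCircle T, E))
    (h : ∀ k : C(AddCircle T, E), ∃ (η : C(AddCircle T, E)) (τ : ℝ),
      ∀ s : ℝ, HasDerivAt (fun r : ℝ => η r) (A s (η s) + k s + τ • v s) s) :
    (LL T A v).range = ⊤ := by
  rw [eq_top_iff]
  intro H _
  obtain ⟨η, τ, hη⟩ := h (mulA T A H + H)
  have := G_unique T η (mulA T A η + (mulA T A H + H) + τ • v + η) fun s => by
    refine HasDerivAt.congr_deriv (hη s) ?_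
    simp only [ContinuousMap.add_apply, ContinuousMap.smul_apply, mulA_apply]
    abel
  refine ⟨(η + H, τ), ?_⟩
  show LL T A v (η + H, τ) = H
  rw [LL_apply, map_add (mulA T A)]
  have e : mulA T A η + mulA T A H + (η + H) + τ • v =
      mulA T A η + (mulA T A H + H) + τ • v + η := by abel
  rw [e, ← this]; abel

noncomputable def FF (g : E → E) (hg : Continuous g) (q : C(AddCircle T, E) × ℝ) :
    C(AddCircle T, E) := q.1 - G T ((1 + q.2) • nem T g hg q.1 + q.1)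

theorem approx {f g : E → E} (hf : ContDiff ℝ 1 f) (hg : ContDiff ℝ 1 g) (x : C(AddCircle T, E))
    {ρ c1 : ℝ} {c : NNReal} (hc1 : 0 ≤ c1)
    (h1 : ∀ σ z, ‖z - x σ‖ ≤ ρ → ‖g z - f (x σ)‖ ≤ c1 ∧ ‖fderiv ℝ g z - fderiv ℝ f (x σ)‖ ≤ c1)
    (h2 : ρ * (‖nem T (fderiv ℝ f) (hf.continuous_fderiv one_ne_zero) x‖ + c1) ≤ c1)
    (h3 : kap T * T * (3 * c1) ≤ c) :
    ApproximatesLinearOn (FF T g hg.continuous)
      (LL T (nem T (fderiv ℝ f) (hf.continuous_fderiv one_ne_zero) x) (nem T f hf.continuous x))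
      (closedBall (x, 0) ρ) c := by
  rintro ⟨y, τ⟩ hy ⟨y', τ'⟩ hy'
  obtain ⟨A, hA⟩ : ∃ A, A = nem T (fderiv ℝ f) (hf.continuous_fderiv one_ne_zero) x := ⟨_, rfl⟩
  rw [← hA] at h2 ⊢
  rw [mem_closedBall, Prod.dist_eq, max_le_iff, dist_eq_norm, dist_eq_norm, sub_zero] at hy hy'
  simp only at hy hy'
  have e : FF T g hg.continuous (y, τ) - FF T g hg.continuous (y', τ') -
      LL T A (nem T f hf.continuous x) ((y, τ) - (y', τ')) =
      - G T ((1 + τ) • nem T g hg.continuous y - (1 + τ') • nem T g hg.continuous y' -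
        mulA T A (y - y') - (τ - τ') • nem T f hf.continuous x) := by
    rw [Prod.mk_sub_mk, LL_apply]
    unfold FF
    simp only [map_add, map_sub]
    abel
  rw [e, norm_neg]
  refine (G_norm' T _).trans ?_
  have hk := kap_pos T
  have hT0 := hT.out
  obtain ⟨D, hD⟩ : ∃ D, D = ‖(y, τ) - (y', τ')‖ := ⟨_, rfl⟩
  have hD0 : 0 ≤ D := hD ▸ norm_nonneg _
  have hD1 : ‖y - y'‖ ≤ D := hD ▸ norm_fst_le ((y, τ) - (y', τ'))
  have hD2 : ‖τ - τ'‖ ≤ D := hD ▸ norm_snd_le ((y, τ) - (y', τ'))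
  rw [← hD]
  refine le_trans (b := kap T * T * (3 * c1 * D))
    (mul_le_mul_of_nonneg_left ?_ (by positivity)) ?_
  · refine (ContinuousMap.norm_le _ (by positivity)).2 fun σ => ?_
    have hz : ‖y σ - x σ‖ ≤ ρ := ((y - x).norm_coe_le_norm σ).trans hy.1
    have hz' : ‖y' σ - x σ‖ ≤ ρ := ((y' - x).norm_coe_le_norm σ).trans hy'.1
    have hyy : ‖y σ - y' σ‖ ≤ D := ((y - y').norm_coe_le_norm σ).trans hD1
    have m1 : ‖g (y σ) - g (y' σ) - A σ (y σ - y' σ)‖ ≤ c1 * ‖y σ - y' σ‖ :=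
      (convex_closedBall (x σ) ρ).norm_image_sub_le_of_norm_fderiv_le'
        (fun z _ => hg.differentiable one_ne_zero z)
        (fun z hz => by
          rw [hA]
          exact (h1 σ z (by rwa [mem_closedBall, dist_eq_norm] at hz)).2)
        (by rwa [mem_closedBall, dist_eq_norm]) (by rwa [mem_closedBall, dist_eq_norm])
    have m1' : ‖g (y σ) - g (y' σ) - A σ (y σ - y' σ)‖ ≤ c1 * D :=
      m1.trans (mul_le_mul_of_nonneg_left hyy hc1)
    have m2 : ‖g (y σ) - g (y' σ)‖ ≤ (‖A‖ + c1) * D := by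
      have a1 : ‖A σ (y σ - y' σ)‖ ≤ ‖A‖ * D := ((A σ).le_opNorm _).trans
        (mul_le_mul (A.norm_coe_le_norm _) hyy (norm_nonneg _) (norm_nonneg A))
      have := norm_add_le (g (y σ) - g (y' σ) - A σ (y σ - y' σ)) (A σ (y σ - y' σ))
      rw [sub_add_cancel] at this
      linarith
    have m3 : ‖τ • (g (y σ) - g (y' σ))‖ ≤ c1 * D := by
      rw [norm_smul]
      calc _ ≤ ρ * ((‖A‖ + c1) * D) :=
            mul_le_mul hy.2 m2 (norm_nonneg _) ((norm_nonneg _).trans hy.2)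
        _ = (ρ * (‖A‖ + c1)) * D := by ring
        _ ≤ _ := mul_le_mul_of_nonneg_right h2 hD0
    have m4 : ‖(τ - τ') • (g (y' σ) - f (x σ))‖ ≤ c1 * D := by
      rw [norm_smul, mul_comm]
      exact mul_le_mul (h1 σ _ hz').1 hD2 (norm_nonneg _) hc1
    have e2 : ((1 + τ) • nem T g hg.continuous y - (1 + τ') • nem T g hg.continuous y' -
        mulA T A (y - y') - (τ - τ') • nem T f hf.continuous x) σ =
        (g (y σ) - g (y' σ) - A σ (y σ - y' σ)) + τ • (g (y σ) - g (y' σ)) +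
          (τ - τ') • (g (y' σ) - f (x σ)) := by
      show (1 + τ) • g (y σ) - (1 + τ') • g (y' σ) - A σ (y σ - y' σ) - (τ - τ') • f (x σ) = _
      module
    rw [e2]
    have := norm_add₃_le (a := g (y σ) - g (y' σ) - A σ (y σ - y' σ))
      (b := τ • (g (y σ) - g (y' σ))) (c := (τ - τ') • (g (y' σ) - f (x σ)))
    linarith
  · calc kap T * T * (3 * c1 * D) = (kap T * T * (3 * c1)) * D := by ring
      _ ≤ _ := mul_le_mul_of_nonneg_right h3 hD0

structure Tr (T : ℝ) (S : Set (E → E)) (R : ℝ) where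
  g : E → E
  mem : g ∈ S
  sm : ContDiff ℝ 1 g
  y : C(AddCircle T, E)
  τ : ℝ
  pos : 0 < 1 + τ
  ode : ∀ s : ℝ, HasDerivAt (fun r : ℝ => y r) ((1 + τ) • g (y s)) s

variable {T} {S : Set (E → E)} {R : ℝ}

noncomputable def Tr.emb (b : Tr T S R) : C(closedBall (0:E) R, E) ×
    C(closedBall (0:E) R, E →L[ℝ] E) × C(AddCircle T, E) × ℝ :=
  (⟨fun z => b.g z, b.sm.continuous.comp continuous_subtype_val⟩,
    ⟨fun z => fderiv ℝ b.g z, (b.sm.continuous_fderiv one_ne_zero).comp continuous_subtype_val⟩,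
    b.y, b.τ)

variable [ProperSpace E]

noncomputable instance : PseudoMetricSpace (Tr T S R) :=
  PseudoMetricSpace.induced Tr.emb inferInstance

theorem Tr.dist_le {a b : Tr T S R} {η : ℝ} (hη : 0 ≤ η) : dist a b ≤ η ↔
    (∀ z, ‖z‖ ≤ R → ‖a.g z - b.g z‖ ≤ η ∧ ‖fderiv ℝ a.g z - fderiv ℝ b.g z‖ ≤ η) ∧
      ‖a.y - b.y‖ ≤ η ∧ |a.τ - b.τ| ≤ η := by
  show dist a.emb b.emb ≤ η ↔ _
  unfold Tr.emb
  rw [Prod.dist_eq, Prod.dist_eq, Prod.dist_eq, max_le_iff, max_le_iff, max_le_iff,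
    ContinuousMap.dist_le hη, ContinuousMap.dist_le hη]
  simp only [dist_eq_norm, ContinuousMap.coe_mk, Subtype.forall, mem_closedBall_zero_iff,
    Real.norm_eq_abs]
  constructor
  · rintro ⟨h1, h2, h3, h4⟩
    exact ⟨fun z hz => ⟨h1 z hz, h2 z hz⟩, h3, h4⟩
  · rintro ⟨h1, h3, h4⟩
    exact ⟨fun z hz => (h1 z hz).1, fun z hz => (h1 z hz).2, h3, h4⟩

theorem Tr.cont_y : Continuous (fun b : Tr T S R => b.y) := by
  have : Continuous (Tr.emb : Tr T S R → _) := continuous_induced_dom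
  exact continuous_fst.comp (continuous_snd.comp (continuous_snd.comp this))

theorem Tr.cont_ev : Continuous (fun z : Tr T S R × ℝ => z.1.y (z.2 : AddCircle T)) :=
  (Tr.cont_y.comp continuous_fst).eval ((cco T).comp continuous_snd)

def Good (b : Tr T S R) : Prop := ∃ K : ℝ, 0 ≤ K ∧ ∀ p ∈ S, ∀ V ∈ 𝓝 b, ∀ᶠ ε in 𝓝[>] (0:ℝ),
  ∃ b' ∈ V, b'.g = b.g + ε • p ∧
    ‖b'.y - b.y‖ ≤ ε * (K * ∫ s in (0:ℝ)..T, ‖p (b.y (s : AddCircle T))‖)

end Pool.Agent.H.MP_260507_an
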