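import Pool.Agent.H.MP_260507_an.C

namespace Pool.Agent.H.MP_260507_an
open Set Filter Topology MeasureTheory Metric

variable {E : Type} [NormedAddCommGroup E] [NormedSpace ℝ E] [ProperSpace E]
variable {T : ℝ} [hT : Fact (0 < T)] {S : Set (E → E)} {R : ℝ}

theorem ev_small (B η : ℝ) (hη : 0 < η) : ∀ᶠ ε in 𝓝[>] (0:ℝ), 0 < ε ∧ ε * B ≤ η := by
  have h1 : Tendsto (fun ε : ℝ => ε * B) (𝓝[>] 0) (𝓝 0) := by
    have : Tendsto (fun ε : ℝ => ε * B) (𝓝 0) (𝓝 (0 * B)) := tendsto_id.mul_const B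
    rw [zero_mul] at this
    exact this.mono_left nhdsWithin_le_nhds
  filter_upwards [self_mem_nhdsWithin, h1.eventually (eventually_le_nhds hη)] with ε a b
  exact ⟨a, b⟩

theorem persist (hS : ∀ g ∈ S, ∀ p ∈ S, ∀ ε : ℝ, g + ε • p ∈ S) (hS1 : ∀ g ∈ S, ContDiff ℝ 1 g)
    (a : Tr T S R) (ha : a.τ = 0) (hR : ‖a.y‖ + 1 ≤ R)
    (h : ∀ k : C(AddCircle T, E), ∃ (η : C(AddCircle T, E)) (τ : ℝ), ∀ s : ℝ,
      HasDerivAt (fun r : ℝ => η r) (fderiv ℝ a.g (a.y s) (η s) + k s + τ • a.g (a.y s)) s) :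
    ∀ᶠ b in 𝓝 a, Good b := by
  haveI : CompleteSpace E := complete_of_proper
  have hT0 := hT.out
  have hk := kap_pos T
  have hf := a.sm
  have hsurj := LL_surj T (nem T (fderiv ℝ a.g) (hf.continuous_fderiv one_ne_zero) a.y)
    (nem T a.g hf.continuous a.y) h
  obtain ⟨Ri, hN⟩ : ∃ Ri : (LL T (nem T (fderiv ℝ a.g) (hf.continuous_fderiv one_ne_zero) a.y)
      (nem T a.g hf.continuous a.y)).NonlinearRightInverse, 0 < Ri.nnnorm :=
    ⟨_, ContinuousLinearMap.nonlinearRightInverseOfSurjective_nnnorm_pos _ hsurj⟩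
  have hN' : (0:ℝ) < Ri.nnnorm := hN
  obtain ⟨c, hc⟩ : ∃ c : NNReal, (c:ℝ) = (Ri.nnnorm : ℝ)⁻¹ / 2 := ⟨⟨_, by positivity⟩, rfl⟩
  have hc0 : (0:ℝ) < c := by rw [hc]; positivity
  obtain ⟨c1, hc1⟩ : ∃ c1 : ℝ, c1 = c / (3 * (kap T * T)) := ⟨_, rfl⟩
  have hc10 : 0 < c1 := by rw [hc1]; positivity
  have h3 : kap T * T * (3 * c1) ≤ c := by rw [hc1]; field_simp; rfl
  obtain ⟨M, hM⟩ : ∃ M, M = ‖nem T (fderiv ℝ a.g) (hf.continuous_fderiv one_ne_zero) a.y‖ :=
    ⟨_, rfl⟩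
  have hM0 : 0 ≤ M := hM ▸ norm_nonneg (nem T (fderiv ℝ a.g) (hf.continuous_fderiv one_ne_zero) a.y)
  obtain ⟨d1, hd1, hu1⟩ := Metric.uniformContinuousOn_iff_le.1
    ((isCompact_closedBall (0:E) R).uniformContinuousOn_of_continuous hf.continuous.continuousOn)
    (c1 / 2) (by positivity)
  obtain ⟨d2, hd2, hu2⟩ := Metric.uniformContinuousOn_iff_le.1
    ((isCompact_closedBall (0:E) R).uniformContinuousOn_of_continuous
      (hf.continuous_fderiv one_ne_zero).continuousOn) (c1 / 2) (by positivity)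
  obtain ⟨ρ, hρ0, hρ1, hρ2, hρ3, hρ4⟩ : ∃ ρ : ℝ, 0 < ρ ∧ ρ ≤ 1 / 2 ∧ ρ ≤ d1 ∧ ρ ≤ d2 ∧
      ρ * (M + c1) ≤ c1 := by
    obtain ⟨ρ, h1, h2, h3, h4⟩ := ((ev_small 1 (1/2) (by norm_num)).and ((ev_small 1 d1 hd1).and
      ((ev_small 1 d2 hd2).and (ev_small (M + c1) c1 hc10)))).exists
    exact ⟨ρ, h1.1, by linarith [h1.2], by linarith [h2.2], by linarith [h3.2], h4.2⟩
  have happ : ∀ (g : E → E) (hg : ContDiff ℝ 1 g), (∀ z, ‖z‖ ≤ R → ‖g z - a.g z‖ ≤ c1 / 2 ∧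
      ‖fderiv ℝ g z - fderiv ℝ a.g z‖ ≤ c1 / 2) → ApproximatesLinearOn (FF T g hg.continuous)
      (LL T (nem T (fderiv ℝ a.g) (hf.continuous_fderiv one_ne_zero) a.y)
        (nem T a.g hf.continuous a.y)) (closedBall (a.y, 0) ρ) c := by
    intro g hg hcl
    refine approx T hf hg a.y hc10.le (fun σ z hz => ?_) (hM ▸ hρ4) h3
    have hx : ‖a.y σ‖ ≤ ‖a.y‖ := a.y.norm_coe_le_norm σ
    have hzR : ‖z‖ ≤ R := by
      have := norm_add_le (z - a.y σ) (a.y σ)
      rw [sub_add_cancel] at this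
      linarith
    have m1 : z ∈ closedBall (0:E) R := mem_closedBall_zero_iff.2 hzR
    have m2 : a.y σ ∈ closedBall (0:E) R := mem_closedBall_zero_iff.2 (by linarith)
    have e1 := hu1 z m1 _ m2 (by rw [dist_eq_norm]; linarith)
    have e2 := hu2 z m1 _ m2 (by rw [dist_eq_norm]; linarith)
    rw [dist_eq_norm] at e1 e2
    obtain ⟨e3, e4⟩ := hcl z hzR
    constructor
    · have := norm_add_le (g z - a.g z) (a.g z - a.g (a.y σ))
      rw [sub_add_sub_cancel] at this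
      linarith
    · have := norm_add_le (fderiv ℝ g z - fderiv ℝ a.g z) (fderiv ℝ a.g z - fderiv ℝ a.g (a.y σ))
      rw [sub_add_sub_cancel] at this
      linarith
  have hη0 : 0 < min (c1 / 4) (ρ / 2) := by positivity
  filter_upwards [closedBall_mem_nhds a hη0] with b hb
  rw [mem_closedBall, Tr.dist_le hη0.le, ha, sub_zero] at hb
  obtain ⟨hb1, hb2, hb3⟩ := hb
  have hb2' : ‖b.y - a.y‖ ≤ ρ / 2 := hb2.trans (min_le_right _ _)
  have hb3' : |b.τ| ≤ ρ / 2 := hb3.trans (min_le_right _ _)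
  refine ⟨4 * Ri.nnnorm * kap T, by positivity, fun p hp V hV => ?_⟩
  obtain ⟨η, hη, hηV⟩ := Metric.nhds_basis_closedBall.mem_iff.1 hV
  have hp1 := hS1 p hp
  obtain ⟨B1, hB1⟩ := (isCompact_closedBall (0:E) R).exists_bound_of_continuousOn
    hp1.continuous.continuousOn
  obtain ⟨B2, hB2⟩ := (isCompact_closedBall (0:E) R).exists_bound_of_continuousOn
    (hp1.continuous_fderiv one_ne_zero).continuousOn
  obtain ⟨I, hI⟩ : ∃ I, I = ∫ s in (0:ℝ)..T, ‖p (b.y (s : AddCircle T))‖ := ⟨_, rfl⟩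
  have hI0 : 0 ≤ I := hI ▸ intervalIntegral.integral_nonneg hT0.le fun _ _ => norm_nonneg _
  rw [← hI]
  have hm1 : 0 < min η (c1 / 4) := by positivity
  have hm2 : 0 < min η (ρ / 2) := by positivity
  filter_upwards [ev_small B1 _ hm1, ev_small B2 _ hm1,
    ev_small (4 * Ri.nnnorm * kap T * I) _ hm2] with ε ⟨hε, e1⟩ ⟨_, e2⟩ ⟨_, e3⟩
  obtain ⟨r, hr⟩ : ∃ r, r = ε * (4 * Ri.nnnorm * kap T * I) := ⟨_, rfl⟩
  rw [← hr] at e3 ⊢
  have hr0 : 0 ≤ r := by rw [hr]; positivity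
  have hr1 : r ≤ η := e3.trans (min_le_left _ _)
  have hr2 : r ≤ ρ / 2 := e3.trans (min_le_right _ _)
  have hg' : ContDiff ℝ 1 (b.g + ε • p) := hS1 _ (hS _ b.mem _ hp ε)
  have hcl : ∀ z, ‖z‖ ≤ R → ‖(b.g + ε • p) z - b.g z‖ ≤ min η (c1 / 4) ∧
      ‖fderiv ℝ (b.g + ε • p) z - fderiv ℝ b.g z‖ ≤ min η (c1 / 4) := by
    intro z hz
    have m1 : z ∈ closedBall (0:E) R := mem_closedBall_zero_iff.2 hz
    constructor
    · simp only [Pi.add_apply, Pi.smul_apply, add_sub_cancel_left]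
      rw [norm_smul, Real.norm_of_nonneg hε.le]
      exact (mul_le_mul_of_nonneg_left (hB1 z m1) hε.le).trans e1
    · have d1 := (b.sm.differentiable one_ne_zero z).hasFDerivAt
      have d2 := ((hp1.differentiable one_ne_zero z).hasFDerivAt).const_smul ε
      rw [(d1.add d2).fderiv, add_sub_cancel_left]
      refine (ContinuousLinearMap.opNorm_smul_le _ _).trans ?_
      rw [Real.norm_of_nonneg hε.le]
      exact (mul_le_mul_of_nonneg_left (hB2 z m1) hε.le).trans e2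
  have hap := happ _ hg' fun z hz => by
    obtain ⟨a1, a2⟩ := hcl z hz
    obtain ⟨a3, a4⟩ := hb1 z hz
    have a1' := a1.trans (min_le_right _ _)
    have a2' := a2.trans (min_le_right _ _)
    have a3' := a3.trans (min_le_left _ _)
    have a4' := a4.trans (min_le_left _ _)
    constructor
    · have := norm_add_le ((b.g + ε • p) z - b.g z) (b.g z - a.g z)
      rw [sub_add_sub_cancel] at this
      linarith
    · have := norm_add_le (fderiv ℝ (b.g + ε • p) z - fderiv ℝ b.g z)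
        (fderiv ℝ b.g z - fderiv ℝ a.g z)
      rw [sub_add_sub_cancel] at this
      linarith
  have hsub : closedBall (b.y, b.τ) r ⊆ closedBall (a.y, (0:ℝ)) ρ := by
    refine closedBall_subset_closedBall' ?_
    have : dist (b.y, b.τ) (a.y, (0:ℝ)) ≤ ρ / 2 := by
      rw [Prod.dist_eq, max_le_iff, dist_eq_norm, Real.dist_eq, sub_zero]
      exact ⟨hb2', hb3'⟩
    linarith
  have hyG := G_unique T b.y ((1 + b.τ) • nem T b.g b.sm.continuous b.y + b.y) fun s => by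
    refine HasDerivAt.congr_deriv (b.ode s) ?_
    show _ = (1 + b.τ) • b.g (b.y s) + b.y s - b.y s
    rw [add_sub_cancel_right]
  have hF : FF T (b.g + ε • p) hg'.continuous (b.y, b.τ) =
      - G T (((1 + b.τ) * ε) • nem T p hp1.continuous b.y) := by
    unfold FF
    have e : (1 + b.τ) • nem T (b.g + ε • p) hg'.continuous b.y + b.y =
        ((1 + b.τ) • nem T b.g b.sm.continuous b.y + b.y) +
          ((1 + b.τ) * ε) • nem T p hp1.continuous b.y := by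
      ext σ
      show (1 + b.τ) • (b.g (b.y σ) + ε • p (b.y σ)) + b.y σ =
        ((1 + b.τ) • b.g (b.y σ) + b.y σ) + ((1 + b.τ) * ε) • p (b.y σ)
      module
    simp only
    rw [e, map_add, ← hyG]; abel
  have hτ2 : 1 + b.τ ≤ 2 := by linarith [le_abs_self b.τ]
  have h0 : (0 : C(AddCircle T, E)) ∈ closedBall (FF T (b.g + ε • p) hg'.continuous (b.y, b.τ))
      (((Ri.nnnorm : ℝ)⁻¹ - c) * r) := by
    rw [mem_closedBall, dist_comm, dist_zero_right, hF, norm_neg, map_smul, norm_smul,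
      Real.norm_of_nonneg (mul_pos b.pos hε).le]
    have hG : ‖G T (nem T p hp1.continuous b.y)‖ ≤ kap T * I := hI ▸ G_norm T _
    have e : ((Ri.nnnorm : ℝ)⁻¹ - c) * r = (2 * ε) * (kap T * I) := by
      rw [hc, hr]; field_simp; ring
    rw [e]
    exact mul_le_mul (mul_le_mul_of_nonneg_right hτ2 hε.le) hG (norm_nonneg _) (by positivity)
  obtain ⟨⟨y', τ'⟩, hq, hq0⟩ := hap.surjOn_closedBall_of_nonlinearRightInverse Ri hr0 hsub h0
  have hq2 := hsub hq
  rw [mem_closedBall, Prod.dist_eq, max_le_iff, dist_eq_norm, Real.dist_eq] at hq hq2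
  simp only [sub_zero] at hq hq2
  have hy' : y' = G T ((1 + τ') • nem T (b.g + ε • p) hg'.continuous y' + y') :=
    sub_eq_zero.1 hq0
  refine ⟨⟨b.g + ε • p, hS _ b.mem _ hp ε, hg', y', τ', by linarith [neg_abs_le τ', hq2.2],
    fun s => ?_⟩, hηV ?_, rfl, hq.1⟩
  · have := G_deriv T ((1 + τ') • nem T (b.g + ε • p) hg'.continuous y' + y') s
    rw [← hy'] at this
    refine HasDerivAt.congr_deriv this ?_
    show (1 + τ') • (b.g + ε • p) (y' s) + y' s - y' s = _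
    rw [add_sub_cancel_right]
  · rw [mem_closedBall, Tr.dist_le hη.le]
    exact ⟨fun z hz => ⟨(hcl z hz).1.trans (min_le_left _ _), (hcl z hz).2.trans (min_le_left _ _)⟩,
      hq.1.trans hr1, hq.2.trans hr1⟩

end Pool.Agent.H.MP_260507_an
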