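import Mathlib

namespace Pool.Agent.H.MP_260507_an

structure Network (C A NT AT : Type) where
  head : A → C
  tail : A → C
  nodeType : C → NT
  arrowType : A → AT
  dim : C → ℕ
  compat : ∀ e e', arrowType e = arrowType e' →
    nodeType (head e) = nodeType (head e') ∧ nodeType (tail e) = nodeType (tail e')
  dim_eq : ∀ c d, nodeType c = nodeType d → dim c = dim d
  dim_pos : ∀ c, 0 < dim c

variable {C A NT AT : Type} (G : Network C A NT AT)

abbrev Network.State : Type := ((c : C) × Fin (G.dim c)) → ℝ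

def Network.node (z : G.State) (c : C) : ℕ → ℝ :=
  fun i => if h : i < G.dim c then z ⟨c, ⟨i, h⟩⟩ else 0

abbrev Network.In (c : C) : Type := {e : A // G.head e = c}

def Network.TypePres {c d : C} (β : G.In c ≃ G.In d) : Prop :=
  ∀ e, G.arrowType (β e).1 = G.arrowType e.1

def Network.Admissible [Fintype C] (n : ℕ∞) (f : G.State → G.State) : Prop :=
  ContDiff ℝ n f ∧ ∃ F : (c : C) → (ℕ → ℝ) → (G.In c → ℕ → ℝ) → ℕ → ℝ,
    ∀ c d, G.nodeType c = G.nodeType d → ∀ β : G.In c ≃ G.In d, G.TypePres β → ∀ z,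
      G.node (f z) d = F c (G.node z d) (fun e => G.node z (G.tail (β e).1))

def HyperbolicOrbit {E : Type} [NormedAddCommGroup E] [NormedSpace ℝ E] [FiniteDimensional ℝ E]
    (f : E → E) (x : ℝ → E) (T : ℝ) : Prop :=
  0 < T ∧ (∀ s, HasDerivAt x (f (x s)) s) ∧ Function.Periodic x T ∧ (∃ s, x s ≠ x 0) ∧
    ∃ Φ : ℝ → E →L[ℝ] E, Φ 0 = 1 ∧ (∀ s, HasDerivAt Φ ((fderiv ℝ f (x s)).comp (Φ s)) s) ∧
      ((LinearMap.charpoly (Φ T : E →ₗ[ℝ] E)).aroots ℂ).count 1 = 1 ∧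
      ∀ μ ∈ (LinearMap.charpoly (Φ T : E →ₗ[ℝ] E)).aroots ℂ, ‖μ‖ = 1 → μ = 1

def Network.Rigid [Fintype C] (n : ℕ∞) (f : G.State → G.State) (x : ℝ → G.State) (T : ℝ)
    (Q : (ℝ → G.State) → ℝ → Prop) : Prop :=
  ∃ δ > 0, ∀ g, G.Admissible n g →
    (∀ z, ‖g z - f z‖ < δ ∧ ‖fderiv ℝ g z - fderiv ℝ f z‖ < δ) →
    ∀ (y : ℝ → G.State) (T' : ℝ), (∀ s, HasDerivAt y (g (y s)) s) → Function.Periodic y T' →
      |T' - T| < δ → (∀ s, ‖y (s * T' / T) - x s‖ < δ) → Q y T'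

def Network.Sync (x : ℝ → G.State) (c d : C) : Prop :=
  G.dim c = G.dim d ∧ ∀ s, G.node (x s) c = G.node (x s) d

end Pool.Agent.H.MP_260507_an
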