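import Pool.Agent.H.MP_260507_an.D

namespace Pool.Agent.H.MP_260507_an
open Set Filter Topology MeasureTheory Metric

variable {E : Type} [NormedAddCommGroup E] [NormedSpace ℝ E] [ProperSpace E]
variable {T : ℝ} [hT : Fact (0 < T)] {S : Set (E → E)} {R : ℝ}

theorem Tr.tend (b : Tr T S R) (s : ℝ) :
    Tendsto (fun b' : Tr T S R => b'.y (s : AddCircle T)) (𝓝 b) (𝓝 (b.y s)) :=
  (Tr.cont_y.eval continuous_const).tendsto b

omit [ProperSpace E] in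
theorem loc_lip {φ : E → ℝ} {z : E} (h : DifferentiableAt ℝ φ z) :
    ∃ c, 0 ≤ c ∧ ∀ᶠ w in 𝓝 z, |φ w - φ z| ≤ c * ‖w - z‖ := by
  obtain ⟨c, hc, h⟩ := h.hasFDerivAt.isBigO_sub.exists_nonneg
  exact ⟨c, hc, h.bound⟩

theorem KL (hS1 : ∀ g ∈ S, ContDiff ℝ 1 g) {b : Tr T S R} (hb : Good b) (l1 l2 : E →L[ℝ] ℝ)
    (s1 s2 : ℝ) (h : ∀ᶠ b' in 𝓝 b, l1 (b'.g (b'.y s1)) = l2 (b'.g (b'.y s2))) :
    ∃ C, ∀ p ∈ S, |l1 (p (b.y s1)) - l2 (p (b.y s2))| ≤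
      C * ∫ s in (0:ℝ)..T, ‖p (b.y (s : AddCircle T))‖ := by
  obtain ⟨K, hK, hb⟩ := hb
  obtain ⟨c1, hc1, h1⟩ := loc_lip (φ := fun w => l1 (b.g w)) (z := b.y s1)
    (l1.differentiableAt.comp _ (b.sm.differentiable one_ne_zero _))
  obtain ⟨c2, hc2, h2⟩ := loc_lip (φ := fun w => l2 (b.g w)) (z := b.y s2)
    (l2.differentiableAt.comp _ (b.sm.differentiable one_ne_zero _))
  refine ⟨(c1 + c2) * K, fun p hp => le_of_forall_pos_le_add fun η hη => ?_⟩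
  have hpc := (hS1 p hp).continuous
  have h3 : ∀ᶠ w in 𝓝 (b.y s1), dist (l1 (p w)) (l1 (p (b.y s1))) < η / 2 :=
    (l1.continuous.comp hpc).continuousAt.eventually (ball_mem_nhds _ (by positivity))
  have h4 : ∀ᶠ w in 𝓝 (b.y s2), dist (l2 (p w)) (l2 (p (b.y s2))) < η / 2 :=
    (l2.continuous.comp hpc).continuousAt.eventually (ball_mem_nhds _ (by positivity))
  have hV := h.and (((b.tend s1).eventually (h1.and h3)).and ((b.tend s2).eventually (h2.and h4)))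
  obtain ⟨ε, ⟨b', ⟨r1, ⟨r2, r3⟩, r4, r5⟩, hg, hy⟩, hε⟩ :=
    ((hb p hp _ hV).and self_mem_nhdsWithin).exists
  have hε : 0 < ε := hε
  obtain ⟨I, hI⟩ : ∃ I, I = ∫ s in (0:ℝ)..T, ‖p (b.y (s : AddCircle T))‖ := ⟨_, rfl⟩
  rw [← hI] at hy ⊢
  have r0 := h.self_of_nhds
  rw [hg] at r1
  simp only [Pi.add_apply, Pi.smul_apply, map_add, map_smul, smul_eq_mul] at r1
  have y1 : ‖b'.y s1 - b.y s1‖ ≤ ε * (K * I) := ((b'.y - b.y).norm_coe_le_norm _).trans hy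
  have y2 : ‖b'.y s2 - b.y s2‖ ≤ ε * (K * I) := ((b'.y - b.y).norm_coe_le_norm _).trans hy
  have r2' := r2.trans (mul_le_mul_of_nonneg_left y1 hc1)
  have r4' := r4.trans (mul_le_mul_of_nonneg_left y2 hc2)
  rw [Real.dist_eq] at r3 r5
  have key : |l1 (p (b'.y s1)) - l2 (p (b'.y s2))| ≤ (c1 + c2) * K * I := by
    refine le_of_mul_le_mul_left ?_ hε
    rw [← abs_of_pos hε, ← abs_mul, abs_of_pos hε, abs_le]
    rw [abs_le] at r2' r4'
    constructor <;> nlinarith [r2'.1, r2'.2, r4'.1, r4'.2]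
  rw [abs_le] at key ⊢
  rw [abs_lt] at r3 r5
  constructor <;> linarith [key.1, key.2, r3.1, r3.2, r5.1, r5.2]

theorem F1 [FiniteDimensional ℝ E] (hS1 : ∀ g ∈ S, ContDiff ℝ 1 g) {b : Tr T S R} (hb : Good b)
    (π : E →L[ℝ] E) (D : Submodule ℝ E) (s0 : ℝ)
    (h1 : ∀ w, π (b.g (b.y s0 + w)) = π (b.g (b.y s0 + π w)))
    (h2 : ∀ᶠ b' in 𝓝 b, π (b'.g (b'.y s0)) = 0 ∧ π (b'.y s0 - b.y s0) ∈ D) {p : E → E}
    (hp : p ∈ S) :
    π (p (b.y s0)) ∈ D.map (π.comp (fderiv ℝ b.g (b.y s0)) : E →ₗ[ℝ] E) := by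
  obtain ⟨K, hK, hb⟩ := hb
  have hcl := (D.map (π.comp (fderiv ℝ b.g (b.y s0)) : E →ₗ[ℝ] E)).closed_of_finiteDimensional
  rw [← SetLike.mem_coe, ← hcl.closure_eq, Metric.mem_closure_iff]
  intro η hη
  obtain ⟨I, hI⟩ : ∃ I, I = ∫ s in (0:ℝ)..T, ‖p (b.y (s : AddCircle T))‖ := ⟨_, rfl⟩
  have hI0 : 0 ≤ I := hI ▸ intervalIntegral.integral_nonneg hT.out.le fun _ _ => norm_nonneg _
  obtain ⟨z, hz⟩ : ∃ z, z = b.y s0 := ⟨_, rfl⟩
  have ht := b.tend s0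
  have h20 := h2.self_of_nhds.1
  rw [← hz] at h1 h2 ht h20 ⊢
  have hH : HasFDerivAt (fun w => π (b.g (z + π (w - z))))
      (π.comp ((fderiv ℝ b.g z).comp π)) z := by
    have a1 : HasFDerivAt (fun w => z + π (w - z)) π z := by
      have := (π.hasFDerivAt.comp z ((hasFDerivAt_id z).sub_const z)).const_add z
      simpa using this
    have a2 : HasFDerivAt b.g (fderiv ℝ b.g z) (z + π (z - z)) := by
      simpa using (b.sm.differentiable one_ne_zero z).hasFDerivAt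
    exact π.hasFDerivAt.comp z (a2.comp z a1)
  have hδ : 0 < η / 2 / (K * I + 1) := by positivity
  have e1 := hH.isLittleO.bound hδ
  have e2 : ∀ᶠ w in 𝓝 z, dist (π (p w)) (π (p z)) < η / 2 :=
    (π.continuous.comp (hS1 p hp).continuous).continuousAt.eventually
      (ball_mem_nhds _ (by positivity))
  obtain ⟨ε, ⟨b', ⟨⟨r1, r2⟩, r3, r4⟩, hg, hy⟩, hε⟩ :=
    ((hb p hp _ (h2.and (ht.eventually (e1.and e2)))).and self_mem_nhdsWithin).exists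
  have hε : 0 < ε := hε
  rw [← hI] at hy
  have y1 : ‖b'.y s0 - z‖ ≤ ε * (K * I) := hz ▸ ((b'.y - b.y).norm_coe_le_norm _).trans hy
  obtain ⟨w, hw⟩ : ∃ w, w = b'.y s0 := ⟨_, rfl⟩
  rw [← hw] at r1 r2 r3 r4 y1
  rw [hg] at r1
  simp only [Pi.add_apply, Pi.smul_apply, map_add, map_smul] at r1
  rw [← h1, add_sub_cancel, sub_self, map_zero, add_zero, h20, sub_zero] at r3
  refine ⟨π (fderiv ℝ b.g z ((-ε⁻¹) • π (w - z))), ⟨_, D.smul_mem (-ε⁻¹) r2, rfl⟩, ?_⟩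
  have e3 : π (p w) - π (fderiv ℝ b.g z ((-ε⁻¹) • π (w - z))) =
      (-ε⁻¹) • (π (b.g w) - (π.comp ((fderiv ℝ b.g z).comp π)) (w - z)) := by
    have : π (b.g w) = - (ε • π (p w)) := eq_neg_of_add_eq_zero_left r1
    rw [this, map_smul, map_smul, smul_sub, smul_neg, smul_smul, neg_mul,
      inv_mul_cancel₀ hε.ne', neg_smul (1:ℝ), neg_neg, one_smul]
    rfl
  have e4 : dist (π (p w)) (π (fderiv ℝ b.g z ((-ε⁻¹) • π (w - z)))) ≤ η / 2 := by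
    rw [dist_eq_norm, e3, norm_smul, norm_neg, norm_inv, Real.norm_of_nonneg hε.le]
    calc _ ≤ ε⁻¹ * (η / 2 / (K * I + 1) * (ε * (K * I))) := by
          refine mul_le_mul_of_nonneg_left (r3.trans ?_) (by positivity)
          exact mul_le_mul_of_nonneg_left y1 hδ.le
      _ = η / 2 * (K * I / (K * I + 1)) := by field_simp
      _ ≤ η / 2 := by
          refine mul_le_of_le_one_right (by positivity) ?_
          rw [div_le_one (by positivity)]; linarith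
  have := dist_triangle_left (π (p z)) (π (fderiv ℝ b.g z ((-ε⁻¹) • π (w - z)))) (π (p w))
  linarith

end Pool.Agent.H.MP_260507_an
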