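import Pool.Agent.H.MP_260507_an.E
import Pool.Agent.H.MP_260507_an.Defs

namespace Pool.Agent.H.MP_260507_an
open Set Filter Topology MeasureTheory Metric
open scoped ContDiff

variable {C A NT AT : Type} (G : Network C A NT AT)

namespace Network

def Rel (c : C) (z : G.State) (d : C) (z' : G.State) : Prop :=
  G.nodeType c = G.nodeType d ∧ ∃ β : G.In c ≃ G.In d, G.TypePres β ∧
    G.node z c = G.node z' d ∧ ∀ e : G.In c, G.node z (G.tail e.1) = G.node z' (G.tail (β e).1)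

theorem node_coe (z : G.State) (α : (c : C) × Fin (G.dim c)) : G.node z α.1 α.2 = z α := by
  unfold node; rw [dif_pos α.2.2]

theorem node_big (z : G.State) (c : C) {i : ℕ} (h : G.dim c ≤ i) : G.node z c i = 0 := by
  unfold node; rw [dif_neg (not_lt.2 h)]

theorem node_lin (z w : G.State) (ε : ℝ) (c : C) :
    G.node (z + ε • w) c = G.node z c + ε • G.node w c := by
  funext i
  simp only [node, Pi.add_apply, Pi.smul_apply]
  split_ifs <;> simp

def c0 (c : C) : (c : C) × Fin (G.dim c) := ⟨c, ⟨0, G.dim_pos c⟩⟩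

theorem node_c0 (z : G.State) (c : C) : G.node z c 0 = z (G.c0 c) := G.node_coe z (G.c0 c)

variable {G}

theorem Rel.symm {c d : C} {z z' : G.State} (h : G.Rel c z d z') : G.Rel d z' c z := by
  obtain ⟨h1, β, h2, h3, h4⟩ := h
  refine ⟨h1.symm, β.symm, fun e => ?_, h3.symm, fun e => ?_⟩
  · have := h2 (β.symm e); rw [Equiv.apply_symm_apply] at this; exact this.symm
  · have := h4 (β.symm e); rw [Equiv.apply_symm_apply] at this; exact this.symm

theorem tail_dim {c d : C} {β : G.In c ≃ G.In d} (h : G.TypePres β) (e : G.In c) :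
    G.dim (G.tail e.1) = G.dim (G.tail (β e).1) :=
  G.dim_eq _ _ (G.compat _ _ (h e).symm).2

variable [Fintype C] {n : ℕ∞}

theorem contDiff_node {m : WithTop ℕ∞} (c : C) (i : ℕ) :
    ContDiff ℝ m (fun z : G.State => G.node z c i) := by
  unfold node
  split_ifs
  · exact contDiff_apply ℝ ℝ _
  · exact contDiff_const

theorem Admissible.rel {f : G.State → G.State} (hf : G.Admissible n f) {c d : C} {z z' : G.State}
    (h : G.Rel c z d z') : G.node (f z) c = G.node (f z') d := by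
  obtain ⟨_, F, hF⟩ := hf
  obtain ⟨h1, β, h2, h3, h4⟩ := h
  rw [hF c d h1 β h2 z', hF c c rfl (Equiv.refl _) (fun _ => rfl) z, h3]
  congr 1
  funext e
  exact h4 e

theorem adm_of_rel {f : G.State → G.State} (hf : ContDiff ℝ n f)
    (h : ∀ c z d z', G.Rel c z d z' → G.node (f z) c = G.node (f z') d) : G.Admissible n f := by
  classical
  refine ⟨hf, fun c u w => if H : ∃ q : C × G.State, G.nodeType c = G.nodeType q.1 ∧
    ∃ β : G.In c ≃ G.In q.1, G.TypePres β ∧ u = G.node q.2 q.1 ∧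
      w = fun e => G.node q.2 (G.tail (β e).1) then G.node (f H.choose.2) H.choose.1 else 0, ?_⟩
  intro c d hcd β hβ z
  have H : ∃ q : C × G.State, G.nodeType c = G.nodeType q.1 ∧
    ∃ γ : G.In c ≃ G.In q.1, G.TypePres γ ∧ G.node z d = G.node q.2 q.1 ∧
      (fun e => G.node z (G.tail (β e).1)) = fun e => G.node q.2 (G.tail (γ e).1) :=
    ⟨(d, z), hcd, β, hβ, rfl, rfl⟩
  simp only
  rw [dif_pos H]
  obtain ⟨h1, γ, h2, h3, h4⟩ := H.choose_spec
  refine h _ _ _ _ ⟨hcd.symm.trans h1, β.symm.trans γ, fun e => ?_, h3, fun e => ?_⟩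
  · have := hβ (β.symm e)
    rw [Equiv.apply_symm_apply] at this
    rw [this]; exact h2 _
  · have := congrFun h4 (β.symm e)
    simp only [Equiv.apply_symm_apply] at this
    exact this

theorem Admissible.add_smul {f p : G.State → G.State} (hf : G.Admissible n f)
    (hp : G.Admissible n p) (ε : ℝ) : G.Admissible n (f + ε • p) :=
  adm_of_rel (hf.1.add (hp.1.const_smul ε)) fun c z d z' h => by
    show G.node (f z + ε • p z) c = G.node (f z' + ε • p z') d
    rw [node_lin, node_lin, hf.rel h, hp.rel h]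

theorem Admissible.c1 {f : G.State → G.State} (hf : G.Admissible n f) (hn : 1 ≤ n) :
    ContDiff ℝ 1 f := hf.1.of_le (by exact_mod_cast hn)

variable (G) in
def Sc (σ : C → G.State → ℝ) : Prop := (∀ c, ContDiff ℝ ∞ (σ c)) ∧
  ∀ c z d z', G.Rel c z d z' → σ c z = σ d z'

variable (G) in
def vec (σ : C → G.State → ℝ) (z : G.State) : G.State := fun α => σ α.1 z

theorem Sc.adm {σ : C → G.State → ℝ} (h : G.Sc σ) : G.Admissible n (G.vec σ) :=
  adm_of_rel (contDiff_pi.2 fun α => (h.1 α.1).of_le (by exact_mod_cast le_top))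
    fun c z d z' hr => by
      funext i
      have := G.dim_eq _ _ hr.1
      simp only [node, vec, h.2 _ _ _ _ hr]
      split_ifs <;> first | rfl | omega

theorem Sc.mul {σ σ' : C → G.State → ℝ} (h : G.Sc σ) (h' : G.Sc σ') :
    G.Sc (fun c z => σ c z * σ' c z) :=
  ⟨fun c => (h.1 c).mul (h'.1 c), fun c z d z' hr => by
    simp only [h.2 _ _ _ _ hr, h'.2 _ _ _ _ hr]⟩

theorem Sc.one : G.Sc (fun _ _ => 1) := ⟨fun _ => contDiff_const, fun _ _ _ _ _ => rfl⟩

variable (G) in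
def cmap (h : ℝ → ℝ) (z : G.State) : G.State := fun α => h (z α)

theorem cmap_smooth {h : ℝ → ℝ} (hh : ContDiff ℝ ∞ h) : ContDiff ℝ ∞ (G.cmap h) :=
  contDiff_pi.2 fun α => hh.comp (contDiff_apply ℝ ℝ α)

omit [Fintype C] in
theorem node_cmap (h : ℝ → ℝ) {c d : C} {z z' : G.State} (hd : G.dim c = G.dim d)
    (e : G.node z c = G.node z' d) : G.node (G.cmap h z) c = G.node (G.cmap h z') d := by
  funext i
  have := congrFun e i
  simp only [node, cmap] at this ⊢
  split_ifs at this ⊢ <;> first | rfl | omega | rw [this]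

theorem cmap_adm {h : ℝ → ℝ} (hh : ContDiff ℝ ∞ h) : G.Admissible n (G.cmap h) :=
  adm_of_rel ((cmap_smooth hh).of_le (by exact_mod_cast le_top)) fun _ _ _ _ hr =>
    node_cmap h (G.dim_eq _ _ hr.1) hr.2.choose_spec.2.1

theorem Admissible.comp_cmap {f : G.State → G.State} (hf : G.Admissible n f) {h : ℝ → ℝ}
    (hh : ContDiff ℝ ∞ h) : G.Admissible n (f ∘ G.cmap h) :=
  adm_of_rel (hf.1.comp ((cmap_smooth hh).of_le (by exact_mod_cast le_top)))
    fun _ _ _ _ ⟨h1, β, h2, h3, h4⟩ => hf.rel ⟨h1, β, h2, node_cmap h (G.dim_eq _ _ h1) h3,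
      fun e => node_cmap h (tail_dim h2 e) (h4 e)⟩

variable [Fintype A]

theorem separate {c d : C} {z z' : G.State} (h : ¬ G.Rel c z d z') :
    ∃ σ, G.Sc σ ∧ σ c z ≠ 0 ∧ σ d z' = 0 := by
  classical
  obtain ⟨K, hK⟩ : ∃ K, ∀ a, G.dim a ≤ K :=
    ⟨∑ a, G.dim a, fun a => Finset.single_le_sum (f := G.dim) (fun _ _ => Nat.zero_le _)
      (Finset.mem_univ a)⟩
  obtain ⟨Q, hQ⟩ : ∃ Q : (ℕ → ℝ) → (ℕ → ℝ) → ℝ,
    Q = fun u v => ∑ i ∈ Finset.range K, (u i - v i) ^ 2 := ⟨_, rfl⟩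
  have Q0 : ∀ u v, 0 ≤ Q u v := fun u v => hQ ▸ Finset.sum_nonneg fun _ _ => sq_nonneg _
  have Qs : ∀ u, Q u u = 0 := fun u => by simp [hQ]
  have Qe : ∀ w a w' b, Q (G.node w a) (G.node w' b) = 0 → G.node w a = G.node w' b := by
    intro w a w' b e
    rw [hQ, Finset.sum_eq_zero_iff_of_nonneg (fun _ _ => sq_nonneg _)] at e
    funext i
    by_cases hi : i < K
    · exact sub_eq_zero.1 (pow_eq_zero_iff two_ne_zero |>.1 (e i (Finset.mem_range.2 hi)))
    · rw [G.node_big _ _ ((hK a).trans (not_lt.1 hi)), G.node_big _ _ ((hK b).trans (not_lt.1 hi))]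
  have Qc : ∀ a v, ContDiff ℝ ∞ fun w : G.State => Q (G.node w a) v := fun a v => by
    rw [hQ]
    exact ContDiff.sum fun i _ => ((contDiff_node a i).sub contDiff_const).pow 2
  refine ⟨fun a w => ∏ β : {β : G.In a ≃ G.In d // G.nodeType a = G.nodeType d ∧ G.TypePres β},
    (Q (G.node w a) (G.node z' d) +
      ∑ e : G.In a, Q (G.node w (G.tail e.1)) (G.node z' (G.tail (β.1 e).1))),
    ⟨fun a => contDiff_prod fun β _ => (Qc _ _).add (ContDiff.sum fun e _ => Qc _ _), ?_⟩, ?_, ?_⟩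
  · rintro a w b w' ⟨h1, γ, h2, h3, h4⟩
    have h5 : ∀ β : G.In a ≃ G.In d, G.TypePres β → G.TypePres (γ.symm.trans β) := fun β hβ e => by
      have := h2 (γ.symm e)
      rw [Equiv.apply_symm_apply] at this
      rw [this]; exact hβ _
    refine Fintype.prod_equiv
      ⟨fun β => ⟨γ.symm.trans β.1, h1.symm.trans β.2.1, h5 _ β.2.2⟩,
       fun β => ⟨γ.trans β.1, h1.trans β.2.1, fun e => (β.2.2 _).trans (h2 e)⟩,
       fun β => Subtype.ext (Equiv.ext fun e => by simp),
       fun β => Subtype.ext (Equiv.ext fun e => by simp)⟩ _ _ fun β => ?_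
    rw [h3]
    congr 1
    refine Fintype.sum_equiv γ _ _ fun e => ?_
    rw [h4]; simp
  · refine Finset.prod_ne_zero_iff.2 fun β _ e => h ?_
    have s0 : 0 ≤ ∑ e : G.In c, Q (G.node z (G.tail e.1)) (G.node z' (G.tail (β.1 e).1)) :=
      Finset.sum_nonneg fun _ _ => Q0 _ _
    have s1 := Q0 (G.node z c) (G.node z' d)
    refine ⟨β.2.1, β.1, β.2.2, Qe _ _ _ _ (by linarith), fun e' => Qe _ _ _ _ ?_⟩
    have s2 : ∑ e : G.In c, Q (G.node z (G.tail e.1)) (G.node z' (G.tail (β.1 e).1)) = 0 := by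
      linarith
    rw [Finset.sum_eq_zero_iff_of_nonneg (fun _ _ => Q0 _ _)] at s2
    exact s2 e' (Finset.mem_univ _)
  · refine Finset.prod_eq_zero (Finset.mem_univ ⟨Equiv.refl _, rfl, fun _ => rfl⟩) ?_
    simp [Qs]

end Network

end Pool.Agent.H.MP_260507_an
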