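import Pool.Agent.H.MP_260507_an.F

namespace Pool.Agent.H.MP_260507_an
open Set Filter Topology MeasureTheory Metric
open scoped ContDiff

variable {C A NT AT : Type} {G : Network C A NT AT} [Fintype C] [Fintype A] {n : ℕ∞}
variable {T : ℝ} [hT : Fact (0 < T)] {R : ℝ}

namespace Network

variable (G) in
abbrev TR (n : ℕ∞) (T R : ℝ) := Tr T {g | G.Admissible n g} R

open Classical in
variable (G) in
noncomputable def bump (m : ℕ) (w : ℝ) (i : ℕ) (a : C) (z : G.State) : ℝ :=
  Real.exp (-(m * (G.node z a i - w) ^ 2)) +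
    ∑ e : G.In a, Real.exp (-(m * (G.node z (G.tail e.1) i - w) ^ 2))

theorem bump_sc (m : ℕ) (w : ℝ) (i : ℕ) : G.Sc (G.bump m w i) := by
  classical
  have h : ∀ a, ContDiff ℝ ∞ fun z : G.State => Real.exp (-(m * (G.node z a i - w) ^ 2)) :=
    fun a => (contDiff_const.mul (((contDiff_node a i).sub contDiff_const).pow 2)).neg.exp
  refine ⟨fun a => (h a).add (ContDiff.sum fun e _ => h _), ?_⟩
  rintro a z b z' ⟨h1, γ, h2, h3, h4⟩
  unfold bump
  rw [h3]
  congr 1
  exact Fintype.sum_equiv γ _ _ fun e => by rw [h4]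

omit [Fintype C] in
theorem bump_le (m : ℕ) (w : ℝ) (i : ℕ) (a : C) (z : G.State) :
    |G.bump m w i a z| ≤ 1 + Fintype.card A := by
  classical
  have h : ∀ r : ℝ, Real.exp (-(m * r ^ 2)) ≤ 1 := fun r =>
    Real.exp_le_one_iff.2 (neg_nonpos.2 (by positivity))
  unfold bump
  rw [abs_of_nonneg (by positivity)]
  refine add_le_add (h _) ((Finset.sum_le_card_nsmul _ _ 1 fun e _ => h _).trans ?_)
  simp only [Finset.card_univ, nsmul_eq_mul, mul_one, Nat.cast_le]
  exact Fintype.card_le_of_injective (fun e => e.1) Subtype.val_injective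

omit [Fintype C] in
theorem bump_ge (m : ℕ) (i : ℕ) {c j : C} (hj : j = c ∨ ∃ e, G.head e = c ∧ G.tail e = j)
    (z : G.State) : 1 ≤ G.bump m (G.node z j i) i c z := by
  classical
  unfold bump
  rcases hj with rfl | ⟨e, he, rfl⟩
  · simp only [sub_self, ne_eq, OfNat.ofNat_ne_zero, not_false_eq_true, zero_pow, mul_zero,
      neg_zero, Real.exp_zero, le_add_iff_nonneg_right]
    positivity
  · refine le_add_of_nonneg_of_le (Real.exp_pos _).le ?_
    refine le_trans ?_ (Finset.single_le_sum (fun _ _ => (Real.exp_pos _).le)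
      (Finset.mem_univ (⟨e, he⟩ : G.In c)))
    simp

omit [Fintype C] in
theorem bump_lim (w : ℝ) (i : ℕ) (z : G.State) (h : ∀ j, G.node z j i ≠ w) (a : C) :
    Tendsto (fun m : ℕ => G.bump m w i a z) atTop (𝓝 0) := by
  classical
  have h1 : ∀ j, Tendsto (fun m : ℕ => Real.exp (-(m * (G.node z j i - w) ^ 2))) atTop (𝓝 0) :=
    fun j => Real.tendsto_exp_neg_atTop_nhds_zero.comp
      (tendsto_natCast_atTop_atTop.atTop_mul_const (sq_pos_iff.2 (sub_ne_zero.2 (h j))))
  have := (h1 a).add (tendsto_finsetSum (Finset.univ : Finset (G.In a)) fun e _ => h1 (G.tail e.1))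
  simpa [bump] using this

variable (G) in
def LC (z0 : G.TR n T R × ℝ) (j : C) : Prop :=
  ∀ᶠ z in 𝓝 z0, ∀ i : Fin (G.dim j), z.1.g (z.1.y (z.2 : AddCircle T)) ⟨j, i⟩ = 0

omit [Fintype A] hT in
theorem coord_deriv (b : G.TR n T R) (α : (c : C) × Fin (G.dim c)) (s : ℝ) :
    HasDerivAt (fun r : ℝ => b.y r α) ((1 + b.τ) * b.g (b.y s) α) s :=
  hasDerivAt_pi.1 (b.ode s) α

theorem lemB (hn : 1 ≤ n) (z0 : G.TR n T R × ℝ) {c j : C} (d : C) (κ θ : ℝ)
    (hj : j = c ∨ ∃ e, G.head e = c ∧ G.tail e = j)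
    (h : ∀ᶠ z in 𝓝 z0, Good z.1 ∧
      z.1.g (z.1.y z.2) (G.c0 c) = κ * z.1.g (z.1.y (z.2 + θ : ℝ)) (G.c0 d) ∧
      ∃ σ, G.Sc σ ∧ σ c (z.1.y z.2) ≠ 0 ∧ κ * σ d (z.1.y (z.2 + θ : ℝ)) = 0) : G.LC z0 j := by
  by_contra hc
  obtain ⟨⟨b, s1⟩, h1, h2⟩ := ((not_eventually.1 hc).and_eventually
    h.eventually_nhds.eventually_nhds).exists
  push Not at h1
  obtain ⟨i, hi⟩ := h1
  simp only at hi
  have hyc : Continuous fun s : ℝ => b.y s := b.y.continuous.comp (cco T)
  have hst : HasStrictDerivAt (fun r : ℝ => b.y r ⟨j, i⟩) ((1 + b.τ) * b.g (b.y s1) ⟨j, i⟩) s1 :=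
    hasStrictDerivAt_of_hasDerivAt_of_continuousAt
      (f' := fun s : ℝ => (1 + b.τ) * b.g (b.y s) ⟨j, i⟩)
      (Eventually.of_forall fun s => coord_deriv b _ s)
      (continuous_const.mul ((continuous_apply _).comp (b.sm.continuous.comp hyc))).continuousAt
  have hV := ((Continuous.prodMk_right b).tendsto s1).eventually h2
  have hV2 := image_mem_map (m := fun r : ℝ => b.y r ⟨j, i⟩) hV
  rw [hst.map_nhds_eq (mul_ne_zero b.pos.ne' hi)] at hV2
  have hnm : ∀ j', Continuous fun s : ℝ => G.node (b.y s) j' i := fun j' =>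
    (contDiff_node (m := 0) j' i).continuous.comp hyc
  have hcount : (⋃ j' : C, {w : ℝ | 0 < volume {s : ℝ | G.node (b.y s) j' i = w}}).Countable :=
    countable_iUnion fun j' => Measure.countable_meas_level_set_pos (hnm j').measurable
  obtain ⟨w, hw1, s2, hs2, hw2⟩ := (hcount.dense_compl ℝ).inter_nhds_nonempty hV2
  have hw3 : G.node (b.y s2) j i = w := (G.node_coe _ ⟨j, i⟩).trans hw2
  obtain ⟨hg, -, σ, hσ, hσ1, hσ2⟩ := Filter.Eventually.self_of_nhds hs2
  simp only at hg hσ1 hσ2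
  have hV3 := ((Continuous.prodMk_left s2).tendsto b).eventually hs2
  obtain ⟨K, hK⟩ := KL (fun g hg => Admissible.c1 hg hn) hg
    (ContinuousLinearMap.proj (G.c0 c)) (κ • ContinuousLinearMap.proj (G.c0 d)) s2 (s2 + θ)
    (hV3.mono fun b' hb' => by exact hb'.2.1)
  have hlim : Tendsto (fun m : ℕ => ∫ s in (0:ℝ)..T,
      ‖G.vec (fun a z => σ a z * G.bump m w i a z) (b.y (s : AddCircle T))‖) atTop
      (𝓝 (∫ s in (0:ℝ)..T, (0:ℝ))) := by
    refine intervalIntegral.tendsto_integral_filter_of_dominated_convergence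
      (fun s => ‖G.vec σ (b.y (s : AddCircle T))‖ * (1 + Fintype.card A))
      (Eventually.of_forall fun m => ?_) (Eventually.of_forall fun m => ?_) ?_ ?_
    · exact (((hσ.mul (bump_sc m w i)).adm (n := 1)).1.continuous.comp hyc).norm.aestronglyMeasurable
    · refine ae_of_all _ fun s _ => ?_
      rw [norm_norm]
      refine (pi_norm_le_iff_of_nonneg (by positivity)).2 fun α => ?_
      show ‖σ α.1 _ * _‖ ≤ _
      rw [norm_mul]
      exact mul_le_mul (norm_le_pi_norm (G.vec σ (b.y (s : AddCircle T))) α) (bump_le _ _ _ _ _)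
        (norm_nonneg _) (norm_nonneg _)
    · exact (((hσ.adm (n := 1)).1.continuous.comp hyc).norm.mul
        continuous_const).intervalIntegrable _ _
    · have : ∀ᵐ s : ℝ, ∀ j', G.node (b.y s) j' i ≠ w := by
        refine ae_all_iff.2 fun j' => ?_
        rw [ae_iff]
        simp only [mem_compl_iff, mem_iUnion, mem_ofPred_eq, not_exists, not_lt,
          nonpos_iff_eq_zero] at hw1
        simpa using hw1 j'
      filter_upwards [this] with s hs _
      rw [← tendsto_zero_iff_norm_tendsto_zero, tendsto_pi_nhds]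
      intro α
      have := (bump_lim w i _ hs α.1).const_mul (σ α.1 (b.y s))
      rw [mul_zero] at this
      exact this
  have hlim2 := hlim.const_mul K
  simp only [intervalIntegral.integral_zero, mul_zero] at hlim2
  obtain ⟨m, hm⟩ := (hlim2.eventually (gt_mem_nhds (abs_pos.2 hσ1))).exists
  have h5 := (hK _ ((hσ.mul (bump_sc m w i)).adm (n := n))).trans_lt hm
  have e : (ContinuousLinearMap.proj (G.c0 c) : G.State →L[ℝ] ℝ)
      (G.vec (fun a z => σ a z * G.bump m w i a z) (b.y s2)) -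
      (κ • ContinuousLinearMap.proj (G.c0 d) : G.State →L[ℝ] ℝ)
      (G.vec (fun a z => σ a z * G.bump m w i a z) (b.y (s2 + θ : ℝ))) =
      σ c (b.y s2) * G.bump m w i c (b.y s2) := by
    show σ c (b.y s2) * G.bump m w i c (b.y s2) -
      κ * (σ d (b.y (s2 + θ : ℝ)) * G.bump m w i d (b.y (s2 + θ : ℝ))) = _
    rw [← mul_assoc, hσ2, zero_mul, sub_zero]
  rw [e, abs_mul] at h5
  have h6 := bump_ge m i hj (b.y s2)
  rw [hw3] at h6
  have := le_mul_of_one_le_right (abs_nonneg (σ c (b.y s2))) (h6.trans (le_abs_self _))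
  linarith

end Network

end Pool.Agent.H.MP_260507_an
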