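import Pool.Agent.H.MP_260507_an.H

namespace Pool.Agent.H.MP_260507_an
open Set Filter Topology MeasureTheory Metric
open scoped ContDiff

section
variable {E : Type} [NormedAddCommGroup E] [NormedSpace ℝ E] [ProperSpace E]
variable {T : ℝ} {S : Set (E → E)} {R : ℝ}

theorem invar (b : Tr T S R) (Q : E →L[ℝ] E) (s0 r : ℝ)
    (h : ∀ s : ℝ, ∃ u v, ‖u‖ ≤ r ∧ ‖v‖ ≤ r ∧ Q (b.g (b.y s)) = Q (b.g v) ∧ Q (b.g u) = 0 ∧
      ‖v - u‖ ≤ ‖Q (b.y s - b.y s0)‖) (s : ℝ) : Q (b.y s - b.y s0) = 0 := by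
  obtain ⟨L, hL⟩ := (isCompact_closedBall (0:E) r).exists_bound_of_continuousOn
    (b.sm.continuous_fderiv one_ne_zero).continuousOn
  refine gron (w := fun s : ℝ => Q (b.y s - b.y s0)) (w' := fun s : ℝ => Q ((1 + b.τ) • b.g (b.y s)))
    (K := (1 + b.τ) * (‖Q‖ * L)) (s0 := s0)
    (fun s => Q.hasFDerivAt.comp_hasDerivAt s ((b.ode s).sub_const _)) (fun s => ?_) (by simp) s
  obtain ⟨u, v, hu, hv, h1, h2, h3⟩ := h s
  have hL0 : 0 ≤ L := (norm_nonneg _).trans (hL u (mem_closedBall_zero_iff.2 hu))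
  have m := (convex_closedBall (0:E) r).norm_image_sub_le_of_norm_fderiv_le
    (fun z _ => b.sm.differentiable one_ne_zero z) hL (mem_closedBall_zero_iff.2 hu)
    (mem_closedBall_zero_iff.2 hv)
  rw [map_smul, norm_smul, Real.norm_of_nonneg b.pos.le, mul_assoc, h1, ← sub_zero (Q (b.g v)),
    ← h2, ← map_sub, mul_assoc]
  refine mul_le_mul_of_nonneg_left ((Q.le_opNorm _).trans
    (mul_le_mul_of_nonneg_left (m.trans ?_) (norm_nonneg _))) b.pos.le
  exact mul_le_mul_of_nonneg_left h3 hL0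
end

variable {C A NT AT : Type} {G : Network C A NT AT} [Fintype C] [Fintype A] {n : ℕ∞}
variable {T : ℝ} [hT : Fact (0 < T)] {R : ℝ}

namespace Network

omit [Fintype A] in
theorem min_pat (a : G.TR n T R) {P : G.TR n T R → Prop} (hP : ∀ᶠ b in 𝓝 a, P b) :
    ∃ z0 : G.TR n T R × ℝ, (∀ᶠ z in 𝓝 z0, P z.1) ∧ ∀ᶠ z in 𝓝 z0, ∀ α β,
      (z.1.y z.2 α = z.1.y z.2 β ↔ z0.1.y z0.2 α = z0.1.y z0.2 β) := by
  classical
  obtain ⟨pat, hpat⟩ : ∃ pat : G.TR n T R × ℝ →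
      Finset (((c : C) × Fin (G.dim c)) × ((c : C) × Fin (G.dim c))),
      ∀ z q, q ∈ pat z ↔ z.1.y z.2 q.1 = z.1.y z.2 q.2 :=
    ⟨fun z => Finset.univ.filter fun q => z.1.y z.2 q.1 = z.1.y z.2 q.2, fun z q => by simp⟩
  have hne : {z : G.TR n T R × ℝ | ∀ᶠ z' in 𝓝 z, P z'.1}.Nonempty :=
    ⟨(a, 0), (continuous_fst.tendsto (a, (0:ℝ))).eventually hP⟩
  obtain ⟨z0, h0, hmin⟩ : ∃ z0 : G.TR n T R × ℝ, (∀ᶠ z' : G.TR n T R × ℝ in 𝓝 z0, P z'.1) ∧
      ∀ z : G.TR n T R × ℝ, (∀ᶠ z' : G.TR n T R × ℝ in 𝓝 z, P z'.1) →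
        (pat z0).card ≤ (pat z).card :=
    ⟨Function.argminOn (fun z => (pat z).card) _ hne,
      Function.argminOn_mem (fun z => (pat z).card) _ hne,
      fun z hz => Function.argminOn_le (fun z => (pat z).card)
        {z : G.TR n T R × ℝ | ∀ᶠ z' in 𝓝 z, P z'.1} hz⟩
  refine ⟨z0, h0, ?_⟩
  have h1 : ∀ᶠ z in 𝓝 z0, ∀ q, q ∉ pat z0 → q ∉ pat z := by
    refine eventually_all.2 fun q => ?_
    by_cases hq : q ∈ pat z0
    · exact Eventually.of_forall fun _ h => absurd hq h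
    · have hc : ∀ α, Continuous fun z : G.TR n T R × ℝ => z.1.y z.2 α := fun α =>
        (continuous_apply α).comp Tr.cont_ev
      rw [hpat] at hq
      filter_upwards [(isOpen_ne_fun (hc q.1) (hc q.2)).mem_nhds hq] with z hz _
      rwa [hpat]
  filter_upwards [h0.eventually_nhds, h1] with z a1 a2 α β
  have : pat z = pat z0 := Finset.eq_of_subset_of_card_le
    (fun q hq => by_contra fun h => a2 q h hq) (hmin z a1)
  rw [← hpat z (α, β), ← hpat z0 (α, β), this]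

omit [Fintype C] [Fintype A] in
theorem node_pat {z z' : G.State} (h : ∀ α β, z α = z β → z' α = z' β) {c d : C}
    (hd : G.dim c = G.dim d) (e : G.node z c = G.node z d) : G.node z' c = G.node z' d := by
  funext i
  have := congrFun e i
  simp only [node] at this ⊢
  split_ifs at this ⊢ <;> first | rfl | omega | exact h _ _ this

omit [Fintype C] [Fintype A] in
theorem rel_pat {z z' : G.State} (h : ∀ α β, z α = z β → z' α = z' β) {c d : C}
    (hr : G.Rel c z d z) : G.Rel c z' d z' := by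
  obtain ⟨h1, β, h2, h3, h4⟩ := hr
  exact ⟨h1, β, h2, node_pat h (G.dim_eq _ _ h1) h3, fun e => node_pat h (tail_dim h2 e) (h4 e)⟩

theorem LC.up (hn : 1 ≤ n) {z0 : G.TR n T R × ℝ} (hG : ∀ᶠ z in 𝓝 z0, Good z.1) {e : A}
    (h : G.LC z0 (G.head e)) : G.LC z0 (G.tail e) := by
  refine lemB hn z0 (c := G.head e) (G.head e) 0 0 (Or.inr ⟨e, rfl, rfl⟩) ?_
  filter_upwards [hG, h] with z h1 h2
  exact ⟨h1, by rw [zero_mul]; exact h2 _, fun _ _ => 1, Sc.one, one_ne_zero, zero_mul _⟩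

open Classical in
variable (G) in
noncomputable def proj (U : C → Prop) : G.State →L[ℝ] G.State :=
  ContinuousLinearMap.pi fun α => if U α.1 then ContinuousLinearMap.proj α else 0

omit [Fintype C] [Fintype A] in
theorem proj_pos {U : C → Prop} (w : G.State) {α} (h : U α.1) : G.proj U w α = w α := by
  simp [proj, h]

omit [Fintype C] [Fintype A] in
theorem proj_neg {U : C → Prop} (w : G.State) {α} (h : ¬ U α.1) : G.proj U w α = 0 := by
  simp [proj, h]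

omit [Fintype A] in
theorem proj_up {U : C → Prop} (hU : ∀ e, U (G.head e) → U (G.tail e)) {g : G.State → G.State}
    (hg : G.Admissible n g) (z w : G.State) :
    G.proj U (g (z + w)) = G.proj U (g (z + G.proj U w)) := by
  have h1 : ∀ j, U j → G.node (z + w) j = G.node (z + G.proj U w) j := fun j hj => by
    funext i
    simp only [node]
    split_ifs with hi
    · rw [Pi.add_apply, Pi.add_apply, proj_pos (α := ⟨j, ⟨i, hi⟩⟩) w hj]
    · rfl
  funext α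
  by_cases h : U α.1
  · rw [proj_pos _ h, proj_pos _ h, ← node_coe G (g (z + w)) α,
      ← node_coe G (g (z + G.proj U w)) α]
    exact congrFun (hg.rel ⟨rfl, Equiv.refl _, fun _ => rfl, h1 _ h,
      fun e => h1 _ (hU _ (e.2.symm ▸ h))⟩) _
  · rw [proj_neg _ h, proj_neg _ h]

omit [Fintype A] in
theorem LC.proj_zero (z0 : G.TR n T R × ℝ) :
    ∀ᶠ z in 𝓝 z0, G.proj (G.LC z0) (z.1.g (z.1.y z.2)) = 0 := by
  have : ∀ᶠ z in 𝓝 z0, ∀ j, G.LC z0 j →
      ∀ i : Fin (G.dim j), z.1.g (z.1.y (z.2 : AddCircle T)) ⟨j, i⟩ = 0 := by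
    refine eventually_all.2 fun j => ?_
    by_cases hj : G.LC z0 j
    · exact Eventually.mono hj fun z hz _ => hz
    · exact Eventually.of_forall fun _ h => absurd h hj
  filter_upwards [this] with z hz
  funext α
  by_cases h : G.LC z0 α.1
  · rw [proj_pos _ h]; exact hz _ h α.2
  · exact proj_neg _ h

theorem lemC (hn : 1 ≤ n) {z0 : G.TR n T R × ℝ} (hG : ∀ᶠ z in 𝓝 z0, Good z.1) {α}
    (h : G.LC z0 α.1) (s : ℝ) : z0.1.y s α = z0.1.y z0.2 α := by
  have h0 := (LC.proj_zero z0).self_of_nhds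
  have := invar z0.1 (G.proj (G.LC z0)) z0.2 (‖z0.1.y‖ + ‖G.proj (G.LC z0)‖ * (2 * ‖z0.1.y‖))
    (fun s => ⟨z0.1.y z0.2, z0.1.y z0.2 + G.proj (G.LC z0) (z0.1.y s - z0.1.y z0.2), ?_, ?_, ?_,
      h0, by simp⟩) s
  · have h2 := congrFun this α
    rw [proj_pos _ h] at h2
    exact sub_eq_zero.1 h2
  · exact (z0.1.y.norm_coe_le_norm _).trans (le_add_of_nonneg_right (by positivity))
  · refine (norm_add_le _ _).trans (add_le_add (z0.1.y.norm_coe_le_norm _)
      ((ContinuousLinearMap.le_opNorm _ _).trans (mul_le_mul_of_nonneg_left ?_ (norm_nonneg _))))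
    rw [← dist_eq_norm]; exact z0.1.y.dist_le_two_norm _ _
  · rw [← proj_up (fun e he => LC.up hn hG he) z0.1.mem, add_sub_cancel]

theorem lemF (hn : 1 ≤ n) {z0 : G.TR n T R × ℝ} (hG : ∀ᶠ z in 𝓝 z0, Good z.1)
    (hP : ∀ᶠ z in 𝓝 z0, ∀ α β, (z.1.y z.2 α = z.1.y z.2 β ↔ z0.1.y z0.2 α = z0.1.y z0.2 β))
    {c d : C} (hc : G.LC z0 c) (hd : G.LC z0 d)
    (h : z0.1.y z0.2 (G.c0 c) = z0.1.y z0.2 (G.c0 d)) :
    G.Rel c (z0.1.y z0.2) d (z0.1.y z0.2) := by
  classical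
  obtain ⟨b, s0⟩ := z0
  simp only at h hP ⊢
  let D : Submodule ℝ G.State :=
    { carrier := {w | (∀ α, ¬ G.LC (b, s0) α.1 → w α = 0) ∧ ∀ α β, G.LC (b, s0) α.1 →
        G.LC (b, s0) β.1 → b.y s0 α = b.y s0 β → w α = w β}
      add_mem' := fun {u v} hu hv => ⟨fun α h => by rw [Pi.add_apply, hu.1 α h, hv.1 α h, add_zero],
        fun α β h1 h2 h3 => by
          rw [Pi.add_apply, Pi.add_apply, hu.2 α β h1 h2 h3, hv.2 α β h1 h2 h3]⟩
      zero_mem' := ⟨fun _ _ => rfl, fun _ _ _ _ _ => rfl⟩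
      smul_mem' := fun t u hu => ⟨fun α h => by rw [Pi.smul_apply, hu.1 α h, smul_zero],
        fun α β h1 h2 h3 => by rw [Pi.smul_apply, Pi.smul_apply, hu.2 α β h1 h2 h3]⟩ }
  have hF : ∀ p, G.Admissible n p → G.proj (G.LC (b, s0)) (p (b.y s0)) ∈
      D.map ((G.proj (G.LC (b, s0))).comp (fderiv ℝ b.g (b.y s0)) : G.State →ₗ[ℝ] G.State) := by
    intro p hp
    refine F1 (fun g hg => Admissible.c1 hg hn) hG.self_of_nhds _ D s0
      (proj_up (fun e he => LC.up hn hG he) b.mem _) ?_ hp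
    filter_upwards [((Continuous.prodMk_left s0).tendsto b).eventually
      ((LC.proj_zero (b, s0)).and hP)] with b' ⟨h1, h2⟩
    refine ⟨h1, fun α hα => proj_neg _ hα, fun α β hα hβ e => ?_⟩
    rw [proj_pos _ hα, proj_pos _ hβ, Pi.sub_apply, Pi.sub_apply, e, (h2 α β).2 e]
  have hle : D ≤
      D.map ((G.proj (G.LC (b, s0))).comp (fderiv ℝ b.g (b.y s0)) : G.State →ₗ[ℝ] G.State) := by
    intro w hw
    obtain ⟨r, hr⟩ : ∃ r : ℝ → ℝ, ∀ α, G.LC (b, s0) α.1 → r (b.y s0 α) = w α :=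
      ⟨fun t => if H : ∃ α, G.LC (b, s0) α.1 ∧ b.y s0 α = t then w H.choose else 0,
        fun α hα => by
          have H : ∃ β, G.LC (b, s0) β.1 ∧ b.y s0 β = b.y s0 α := ⟨α, hα, rfl⟩
          simp only
          rw [dif_pos H]
          exact hw.2 _ _ H.choose_spec.1 hα H.choose_spec.2⟩
    have := hF _ (cmap_adm (Polynomial.contDiff_aeval
      (Lagrange.interpolate (Finset.univ.image (b.y s0)) id r) ∞))
    convert this using 1
    funext α
    by_cases hα : G.LC (b, s0) α.1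
    · rw [proj_pos _ hα, ← hr α hα]
      exact (Lagrange.eval_interpolate_at_node (v := id) r (injOn_id _)
        (Finset.mem_image_of_mem _ (Finset.mem_univ α))).symm
    · rw [proj_neg _ hα]; exact hw.1 α hα
  have heq := Submodule.eq_of_le_of_finrank_le hle (Submodule.finrank_map_le _ _)
  by_contra hr
  obtain ⟨σ, hσ, h1, h2⟩ := separate hr
  have := hF _ (hσ.adm (n := n))
  rw [← heq] at this
  have h3 := this.2 (G.c0 c) (G.c0 d) hc hd h
  rw [proj_pos (α := G.c0 c) _ hc, proj_pos (α := G.c0 d) _ hd] at h3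
  exact h1 (h3.trans h2)

theorem claimA (hn : 1 ≤ n) {z0 : G.TR n T R × ℝ} (hG : ∀ᶠ z in 𝓝 z0, Good z.1)
    (hP : ∀ᶠ z in 𝓝 z0, ∀ α β, (z.1.y z.2 α = z.1.y z.2 β ↔ z0.1.y z0.2 α = z0.1.y z0.2 β))
    {c d : C} (h : z0.1.y z0.2 (G.c0 c) = z0.1.y z0.2 (G.c0 d)) :
    G.Rel c (z0.1.y z0.2) d (z0.1.y z0.2) := by
  have key : ∀ c d, z0.1.y z0.2 (G.c0 c) = z0.1.y z0.2 (G.c0 d) →
      ¬ G.Rel c (z0.1.y z0.2) d (z0.1.y z0.2) → G.LC z0 c := by
    intro c d h hr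
    refine lemB hn z0 d 1 0 (Or.inl rfl) ?_
    filter_upwards [hG, hP, hP.eventually_nhds] with z h1 h2 h3
    refine ⟨h1, ?_, ?_⟩
    · have h4 := ((Continuous.prodMk_right z.1).tendsto z.2).eventually h3
      have h5 : (fun s : ℝ => z.1.y s (G.c0 c)) =ᶠ[𝓝 z.2] fun s : ℝ => z.1.y s (G.c0 d) :=
        h4.mono fun s hs => (hs _ _).2 h
      have := (coord_deriv z.1 (G.c0 c) z.2).unique
        ((coord_deriv z.1 (G.c0 d) z.2).congr_of_eventuallyEq h5)
      rw [add_zero, one_mul]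
      exact mul_left_cancel₀ z.1.pos.ne' this
    · obtain ⟨σ, hσ, a1, a2⟩ := separate (c := c) (d := d) (z := z.1.y z.2) (z' := z.1.y z.2)
        fun hh => hr (rel_pat (fun α β => (h2 α β).1) hh)
      exact ⟨σ, hσ, a1, by rw [add_zero, one_mul]; exact a2⟩
  by_contra hr
  exact hr (lemF hn hG hP (key c d h hr) (key d c h.symm fun hh => hr hh.symm) h)

end Network

end Pool.Agent.H.MP_260507_an
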