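import Pool.Agent.H.MP_260507_an.I

namespace Pool.Agent.H.MP_260507_an
open Set Filter Topology MeasureTheory Metric
open scoped ContDiff

variable {C A NT AT : Type} {G : Network C A NT AT} [Fintype C] [Fintype A] {n : ℕ∞}
variable {T : ℝ} [hT : Fact (0 < T)] {R : ℝ}

namespace Network

theorem lemD (hn : 1 ≤ n) {z0 : G.TR n T R × ℝ} (hG : ∀ᶠ z in 𝓝 z0, Good z.1)
    (hP : ∀ᶠ z in 𝓝 z0, ∀ α β, (z.1.y z.2 α = z.1.y z.2 β ↔ z0.1.y z0.2 α = z0.1.y z0.2 β))
    {c d : C} (hd : G.dim c = G.dim d) (h : G.node (z0.1.y z0.2) c = G.node (z0.1.y z0.2) d)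
    (s : ℝ) : G.node (z0.1.y s) c = G.node (z0.1.y s) d := by
  let st : Setoid C := ⟨fun c d => G.dim c = G.dim d ∧
    G.node (z0.1.y z0.2) c = G.node (z0.1.y z0.2) d, fun _ => ⟨rfl, rfl⟩,
    fun h => ⟨h.1.symm, h.2.symm⟩, fun h h' => ⟨h.1.trans h'.1, h.2.trans h'.2⟩⟩
  obtain ⟨rep, r1, r2⟩ : ∃ rep : C → C, (∀ c, G.dim (rep c) = G.dim c ∧
      G.node (z0.1.y z0.2) (rep c) = G.node (z0.1.y z0.2) c) ∧ ∀ c d, G.dim c = G.dim d →
      G.node (z0.1.y z0.2) c = G.node (z0.1.y z0.2) d → rep c = rep d :=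
    ⟨fun c => (Quotient.mk st c).out, fun c => Quotient.mk_out (s := st) c,
      fun c d h1 h2 => congrArg Quotient.out (Quotient.sound (s := st) ⟨h1, h2⟩)⟩
  obtain ⟨ρ, hρ⟩ : ∃ ρ : G.State →L[ℝ] G.State, ∀ z c, G.node (ρ z) c = G.node z (rep c) :=
    ⟨ContinuousLinearMap.pi fun α => ContinuousLinearMap.proj
      ⟨rep α.1, Fin.cast (r1 α.1).1.symm α.2⟩, fun z c => by
      funext i
      have := (r1 c).1
      simp only [node]
      split_ifs <;> first | rfl | omega⟩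
  have ext : ∀ z : G.State, (∀ c, G.node z c = G.node z (rep c)) → z - ρ z = 0 := fun z hz => by
    funext α
    rw [Pi.sub_apply, ← node_coe G z α, ← node_coe G (ρ z) α, hρ, ← hz, sub_self]; rfl
  have h0 := ext (z0.1.y z0.2) fun c => (r1 c).2.symm
  have hQ : ∀ z, (ContinuousLinearMap.id ℝ G.State - ρ) z = z - ρ z := fun _ => rfl
  have hQ2 : ∀ s : ℝ, (ContinuousLinearMap.id ℝ G.State - ρ) (z0.1.y s - z0.1.y z0.2) =
      z0.1.y s - ρ (z0.1.y s) := fun s => by rw [map_sub, hQ, hQ, h0, sub_zero]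
  have := invar z0.1 (ContinuousLinearMap.id ℝ G.State - ρ) z0.2 (‖z0.1.y‖ + ‖ρ‖ * ‖z0.1.y‖)
    (fun s => ⟨ρ (z0.1.y s), z0.1.y s, ?_, ?_, rfl, ?_, by rw [hQ2]⟩) s
  · rw [hQ2, sub_eq_zero] at this
    rw [this, hρ, hρ, r2 c d hd h]
  · exact ((ρ.le_opNorm _).trans (mul_le_mul_of_nonneg_left (z0.1.y.norm_coe_le_norm _)
      (norm_nonneg _))).trans (le_add_of_nonneg_left (norm_nonneg z0.1.y))
  · exact (z0.1.y.norm_coe_le_norm _).trans (le_add_of_nonneg_right (by positivity))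
  · rw [hQ]
    refine ext _ fun c => ?_
    obtain ⟨h1, β, h2, h3, h4⟩ := claimA hn hG hP (c := c) (d := rep c) (by
      rw [← node_c0 G (z0.1.y z0.2) c, ← node_c0 G (z0.1.y z0.2) (rep c), (r1 c).2])
    exact Admissible.rel z0.1.mem ⟨h1, β, h2, by rw [hρ, hρ, r2 _ _ (r1 c).1 (r1 c).2],
      fun e => by rw [hρ, hρ, r2 _ _ (tail_dim h2 e) (h4 e)]⟩

theorem cutoff (R1 : ℝ) (h : 0 < R1) : ∃ (ψ : ℝ → ℝ) (M : NNReal), ContDiff ℝ ∞ ψ ∧
    (∀ r, |r| ≤ R1 → ψ r = r) ∧ (∀ r, |ψ r| ≤ R1 + 1) ∧ LipschitzWith M ψ := by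
  let χ : ContDiffBump (0:ℝ) := ⟨R1, R1 + 1, h, by linarith⟩
  have hs : ContDiff ℝ ∞ fun r : ℝ => r * χ r := contDiff_id.mul χ.contDiff
  obtain ⟨M, hM⟩ := hs.lipschitzWith_of_hasCompactSupport (𝕂 := ℝ)
    (χ.hasCompactSupport.mul_left (f := fun r : ℝ => r)) (by simp)
  refine ⟨_, M, hs, fun r hr => ?_, fun r => ?_, hM⟩
  · rw [χ.one_of_mem_closedBall (by simpa using hr), mul_one]
  · by_cases hr : |r| ≤ R1 + 1
    · rw [abs_mul, abs_of_nonneg χ.nonneg]
      exact (mul_le_of_le_one_right (abs_nonneg _) χ.le_one).trans hr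
    · rw [χ.zero_of_le_dist (by simpa using (not_le.1 hr).le), mul_zero, abs_zero]
      linarith

omit [Fintype A] in
theorem setup (hn : 1 ≤ n) {f : G.State → G.State} (hf : G.Admissible n f) {x : ℝ → G.State}
    (hx : HyperbolicOrbit f x T) {Q : (ℝ → G.State) → ℝ → Prop} (hr : G.Rigid n f x T Q) :
    ∃ (R : ℝ) (a : G.TR n T R), (∀ s : ℝ, a.y s = x s) ∧ ∀ᶠ b in 𝓝 a, Good b ∧
      Q (fun s => b.y (s / (1 + b.τ) : ℝ)) (T * (1 + b.τ)) := by
  classical
  obtain ⟨hT0, hode, hper, ⟨s1, hs1⟩, Φ, h0, hΦ, hm, -⟩ := hx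
  have hf1 := hf.c1 hn
  have hxc : Continuous x := continuous_iff_continuousAt.2 fun s => (hode s).continuousAt
  obtain ⟨X, hX⟩ : ∃ X : C(AddCircle T, G.State), ∀ s : ℝ, X s = x s :=
    ⟨mkX T x hxc hper, fun _ => rfl⟩
  have hX' : (fun s : ℝ => X s) = x := funext hX
  have hX0 : 0 ≤ ‖X‖ := norm_nonneg X
  obtain ⟨ψ, M, p1, p2, p3, p4⟩ := cutoff (‖X‖ + 1) (by linarith)
  let a : G.TR n T (‖X‖ + 1 + 1) := ⟨f, hf, hf1, X, 0, by norm_num, fun s => by
    rw [hX', hX, add_zero, one_smul]; exact hode s⟩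
  refine ⟨_, a, hX, Eventually.and ?_ ?_⟩
  · refine persist (S := {g | G.Admissible n g})
      (fun g hg p hp ε => Admissible.add_smul (G := G) (n := n) (f := g) (p := p) hg hp ε)
      (fun g hg => Admissible.c1 (G := G) (n := n) (f := g) hg hn) a rfl (by show ‖X‖ + 1 ≤ _; linarith) fun k => ?_
    refine lin_solve T (nem T (fderiv ℝ f) (hf1.continuous_fderiv one_ne_zero) X)
      (nem T f hf1.continuous X) (fun s => ?_) ?_ Φ h0 (fun s => ?_) ?_ k
    · have := (hf1.differentiable one_ne_zero (x s)).hasFDerivAt.comp_hasDerivAt s (hode s)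
      simp only [nem, ContinuousMap.coe_mk, hX]
      exact this
    · by_contra hc
      push Not at hc
      simp only [nem, ContinuousMap.coe_mk, hX] at hc
      exact hs1 (is_const_of_deriv_eq_zero (fun s => (hode s).differentiableAt)
        (fun s => by rw [(hode s).deriv, hc]) _ _)
    · simp only [nem, ContinuousMap.coe_mk, hX]
      exact hΦ s
    · rw [Polynomial.aroots_def, Polynomial.count_roots] at hm
      rw [Polynomial.eq_rootMultiplicity_map (algebraMap ℝ ℂ).injective, map_one]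
      exact hm
  · obtain ⟨δ, hδ, hr⟩ := hr
    obtain ⟨η, ⟨hη, e1⟩, ⟨-, e2⟩, ⟨-, e3⟩, -, e4⟩ := ((ev_small 1 (δ / 2) (by positivity)).and
      ((ev_small M (δ / 2) (by positivity)).and ((ev_small T (δ / 2) (by positivity)).and
        (ev_small 1 1 one_pos)))).exists
    have q1 : ∀ z, ‖G.cmap ψ z‖ ≤ ‖X‖ + 1 + 1 := fun z =>
      (pi_norm_le_iff_of_nonneg (by linarith)).2 fun α => p3 _
    have q2 : ∀ z, ‖z‖ ≤ ‖X‖ + 1 → G.cmap ψ z = z := fun z hz => funext fun α =>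
      p2 _ ((norm_le_pi_norm z α).trans hz)
    have q3 : LipschitzWith M (G.cmap ψ) := LipschitzWith.of_dist_le_mul fun z w =>
      (dist_pi_le_iff (by positivity)).2 fun α => (p4.dist_le_mul _ _).trans
        (mul_le_mul_of_nonneg_left (dist_le_pi_dist z w α) M.2)
    filter_upwards [closedBall_mem_nhds a hη] with b hb
    rw [mem_closedBall, Tr.dist_le hη.le] at hb
    obtain ⟨b1, b2, b3⟩ := hb
    have b2 : ‖b.y - X‖ ≤ η := b2
    have b3 : |b.τ| ≤ η := by simpa [a] using b3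
    have hp := b.pos
    refine hr (f + (1:ℝ) • ((b.g + (-1:ℝ) • f) ∘ G.cmap ψ))
      (hf.add_smul ((Admissible.add_smul b.mem hf _).comp_cmap p1) _) (fun z => ?_) _ _
      (fun s => ?_) (fun s => ?_) ?_ (fun s => ?_)
    · obtain ⟨c1, c2⟩ := b1 _ (q1 z)
      constructor
      · simp only [Pi.add_apply, one_smul, Function.comp_apply, neg_smul, Pi.neg_apply,
          add_sub_cancel_left, ← sub_eq_add_neg]
        exact c1.trans_lt (by linarith)
      · have d1 := (hf1.differentiable one_ne_zero z).hasFDerivAt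
        have d2 := (hf1.differentiable one_ne_zero (G.cmap ψ z)).hasFDerivAt
        have d3 := (b.sm.differentiable one_ne_zero (G.cmap ψ z)).hasFDerivAt
        have d4 := ((cmap_smooth (G := G) p1).differentiable (by simp) z).hasFDerivAt
        have d5 := d1.add (((d3.add (d2.const_smul (-1:ℝ))).comp z d4).const_smul (1:ℝ))
        rw [d5.fderiv, add_sub_cancel_left, one_smul, neg_smul, one_smul, ← sub_eq_add_neg]
        refine (ContinuousLinearMap.opNorm_comp_le _ _).trans_lt ?_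
        refine (mul_le_mul c2 (norm_fderiv_le_of_lipschitz ℝ q3) (norm_nonneg _) hη.le).trans_lt ?_
        linarith
    · have := (b.ode (s / (1 + b.τ))).scomp s ((hasDerivAt_id s).div_const (1 + b.τ))
      refine HasDerivAt.congr_deriv this ?_
      have hy : ‖b.y (s / (1 + b.τ) : ℝ)‖ ≤ ‖X‖ + 1 := by
        have t1 := b.y.norm_coe_le_norm (s / (1 + b.τ) : ℝ)
        have t2 := norm_add_le (b.y - X) X
        rw [sub_add_cancel] at t2
        linarith
      simp only [Pi.add_apply, one_smul, Function.comp_apply, q2 _ hy, Pi.smul_apply, smul_smul]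
      rw [one_div, inv_mul_cancel₀ hp.ne']
      module
    · have : (s + T * (1 + b.τ)) / (1 + b.τ) = s / (1 + b.τ) + T := by field_simp
      simp only [this, coe_add_T]
    · rw [show T * (1 + b.τ) - T = b.τ * T by ring, abs_mul, abs_of_pos hT0]
      exact (mul_le_mul_of_nonneg_right b3 hT0.le).trans_lt (by linarith)
    · have : s * (T * (1 + b.τ)) / T / (1 + b.τ) = s := by field_simp
      simp only [this]
      rw [← hX]
      exact (((b.y - X).norm_coe_le_norm s).trans b2).trans_lt (by linarith)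

omit hT in
theorem rigid_phase (hn : 1 ≤ n) {f : G.State → G.State} (hf : G.Admissible n f)
    {x : ℝ → G.State} (hx : HyperbolicOrbit f x T) (c d : C) (θ : ℝ)
    (hr : G.Rigid n f x T fun y T' => ∀ s, G.node (y s) c = G.node (y (s + θ * T' / T)) d) :
    G.nodeType c = G.nodeType d ∧ ∃ β : G.In c ≃ G.In d, G.TypePres β := by
  haveI : Fact (0 < T) := ⟨hx.1⟩
  have hT0 := hx.1
  obtain ⟨R, a, -, ha⟩ := setup hn hf hx hr
  have ha' : ∀ᶠ b : G.TR n T R in 𝓝 a, Good b ∧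
      ∀ s : ℝ, b.y s (G.c0 c) = b.y (s + θ : ℝ) (G.c0 d) := by
    filter_upwards [ha] with b ⟨h1, h2⟩
    refine ⟨h1, fun s => ?_⟩
    have hp := b.pos
    have := congrFun (h2 (s * (1 + b.τ))) 0
    rw [node_c0, node_c0] at this
    have e1 : s * (1 + b.τ) / (1 + b.τ) = s := by field_simp
    have e2 : (s * (1 + b.τ) + θ * (T * (1 + b.τ)) / T) / (1 + b.τ) = s + θ := by field_simp
    simp only [e1, e2] at this
    exact this
  obtain ⟨z0, h1, hP⟩ := min_pat a ha'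
  have hG : ∀ᶠ z in 𝓝 z0, Good z.1 := h1.mono fun _ h => h.1
  by_contra hne
  have hnr : ∀ z z', ¬ G.Rel c z d z' := fun z z' ⟨a1, β, a2, _⟩ => hne ⟨a1, β, a2⟩
  have key : ∀ (c d : C) (θ : ℝ), (∀ z z', ¬ G.Rel c z d z') → (∀ᶠ z : G.TR n T R × ℝ in 𝓝 z0,
      ∀ s : ℝ, z.1.y s (G.c0 c) = z.1.y (s + θ : ℝ) (G.c0 d)) → G.LC z0 c := by
    intro c d θ hnr h1
    refine lemB hn z0 d 1 θ (Or.inl rfl) ?_
    filter_upwards [hG, h1] with z a1 a2
    refine ⟨a1, ?_, ?_⟩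
    · have t1 := (coord_deriv z.1 (G.c0 d) (z.2 + θ)).comp_add_const z.2 θ
      rw [← funext a2] at t1
      rw [one_mul]
      exact mul_left_cancel₀ z.1.pos.ne' ((coord_deriv z.1 (G.c0 c) z.2).unique t1)
    · obtain ⟨σ, hσ, t1, t2⟩ := separate (hnr (z.1.y z.2) (z.1.y (z.2 + θ : ℝ)))
      exact ⟨σ, hσ, t1, by rw [one_mul]; exact t2⟩
  have hc := key c d θ hnr (h1.mono fun _ h => h.2)
  have hd := key d c (-θ) (fun z z' h => hnr _ _ h.symm) (h1.mono fun z h s => by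
    have := h.2 (s + -θ)
    rw [neg_add_cancel_right] at this
    exact this.symm)
  refine hnr _ _ (lemF hn hG hP hc hd ?_)
  rw [h1.self_of_nhds.2 z0.2]
  exact lemC hn hG (α := G.c0 d) hd _

omit hT in
theorem rigid_sync (hn : 1 ≤ n) {f : G.State → G.State} (hf : G.Admissible n f)
    {x : ℝ → G.State} (hx : HyperbolicOrbit f x T)
    (hr : G.Rigid n f x T fun y _ => ∀ c d, G.Sync x c d → G.Sync y c d) (c d : C)
    (hcd : G.Sync x c d) : G.nodeType c = G.nodeType d ∧ ∃ β : G.In c ≃ G.In d, G.TypePres β ∧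
      ∀ e : G.In c, G.Sync x (G.tail e.1) (G.tail (β e).1) := by
  haveI : Fact (0 < T) := ⟨hx.1⟩
  obtain ⟨R, a, hax, ha⟩ := setup hn hf hx hr
  have ha2 : ∀ᶠ b : G.TR n T R in 𝓝 a, ∀ c d, G.dim c = G.dim d →
      (∀ s : ℝ, G.node (b.y s) c = G.node (b.y s) d) → G.Sync x c d := by
    refine eventually_all.2 fun c => eventually_all.2 fun d => ?_
    by_cases h : ∀ s, G.node (x s) c = G.node (x s) d
    · exact Eventually.of_forall fun _ h1 _ => ⟨h1, h⟩
    · push Not at h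
      obtain ⟨s, hs⟩ := h
      obtain ⟨i, hi⟩ := Function.ne_iff.1 hs
      have hc : ∀ c, Continuous fun b : G.TR n T R => G.node (b.y s) c i := fun c =>
        (contDiff_node (m := 0) c i).continuous.comp (Tr.cont_y.eval continuous_const)
      rw [← hax] at hi
      filter_upwards [(isOpen_ne_fun (hc c) (hc d)).mem_nhds hi] with b hb _ h2
      exact absurd (congrFun (h2 s) i) hb
  obtain ⟨z0, h1, hP⟩ := min_pat a (ha.and ha2)
  have hG : ∀ᶠ z in 𝓝 z0, Good z.1 := h1.mono fun _ h => h.1.1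
  obtain ⟨⟨-, h2⟩, h3⟩ := h1.self_of_nhds
  have hp := z0.1.pos
  have h4 := congrFun ((h2 c d hcd).2 (z0.2 * (1 + z0.1.τ))) 0
  have e1 : z0.2 * (1 + z0.1.τ) / (1 + z0.1.τ) = z0.2 := by field_simp
  simp only [e1, node_c0] at h4
  obtain ⟨a1, β, a2, a3, a4⟩ := claimA hn hG hP h4
  exact ⟨a1, β, a2, fun e => h3 _ _ (tail_dim a2 e) (lemD hn hG hP (tail_dim a2 e) (a4 e))⟩

end Network

end Pool.Agent.H.MP_260507_an
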